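import Mathlib

/-! # H45K, K1: for odd `l` the subgroup generated by the squares in the image of a compact group in `GL_n(ℚ_l)` is open

If all entries of `ρ g - 1` are divisible by `l` then `ρ g` is the square of an element of the image: `(ρ g) ^ (l ^ k)` converges to 1 and a limit
point `h` of `g ^ ((l ^ k + 1) / 2)` satisfies `ρ h ^ 2 = ρ g`. -/

set_option autoImplicit false
set_option linter.unusedSectionVars false

namespace H45K

open Filter Topology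

theorem pow_step {R : Type*} [Ring R] {l : ℕ} (hl : l.Prime) (k : ℕ) (X : R) :
    ∃ Y : R, (1 + (l : R) ^ (k + 1) * X) ^ l = 1 + (l : R) ^ (k + 2) * Y := by
  have hcl : ∀ z : R, Commute (l : R) z := fun z => Nat.cast_commute l z
  obtain ⟨r, hr⟩ := Commute.exists_add_pow_prime_eq hl (Commute.one_left ((l : R) ^ (k + 1) * X))
  have h2 : (k + 1) * l = (k + 2) + ((k + 1) * l - (k + 2)) := by
    have : k + 2 ≤ (k + 1) * l := by nlinarith [hl.two_le]
    omega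
  have h3 : ((l : R) ^ (k + 1) * X) ^ l = (l : R) ^ (k + 2) * ((l : R) ^ ((k + 1) * l - (k + 2)) * X ^ l) := by
    rw [((hcl X).pow_left (k + 1)).mul_pow, ← pow_mul, ← mul_assoc, ← pow_add, ← h2]
  refine ⟨(l : R) ^ ((k + 1) * l - (k + 2)) * X ^ l + X * r, ?_⟩
  rw [hr, one_pow, h3, mul_one, mul_add, ← add_assoc]
  congr 1
  rw [pow_succ' (l : R) (k + 1)]
  simp only [mul_assoc]

theorem pow_form {R : Type*} [Ring R] {l : ℕ} (hl : l.Prime) (X : R) (k : ℕ) :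
    ∃ Y : R, (1 + (l : R) * X) ^ (l ^ k) = 1 + (l : R) ^ (k + 1) * Y := by
  induction k with
  | zero => exact ⟨X, by rw [pow_zero, pow_one, zero_add, pow_one]⟩
  | succ k ih =>
    obtain ⟨Y, hY⟩ := ih
    obtain ⟨Z, hZ⟩ := pow_step hl k Y
    exact ⟨Z, by rw [pow_succ, pow_mul, hY, hZ]⟩

section

variable {l : ℕ} [hlp : Fact l.Prime] {ι : Type*} [Fintype ι] [DecidableEq ι]

theorem tendsto_one (A : Matrix ι ι ℚ_[l]) (hA : ∀ i j, ‖(A - 1) i j‖ < 1) : Tendsto (fun k : ℕ => A ^ (l ^ k)) atTop (𝓝 1) := by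
  have h1 : ∀ i j, ∃ z : ℤ_[l], (A - 1) i j = (l : ℚ_[l]) * (z : ℚ_[l]) := by
    intro i j
    obtain ⟨a, ha⟩ : ∃ a : ℤ_[l], (a : ℚ_[l]) = (A - 1) i j := ⟨⟨(A - 1) i j, (hA i j).le⟩, rfl⟩
    have h2 : ‖a‖ < 1 := by
      rw [PadicInt.norm_def, ha]
      exact hA i j
    rw [PadicInt.norm_lt_one_iff_dvd] at h2
    obtain ⟨z, hz⟩ := h2
    refine ⟨z, ?_⟩
    rw [← ha, hz, PadicInt.coe_mul, PadicInt.coe_natCast]
  choose X hX using h1
  let f : Matrix ι ι ℤ_[l] →+* Matrix ι ι ℚ_[l] := (PadicInt.Coe.ringHom (p := l)).mapMatrix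
  have hA' : A = f (1 + (l : Matrix ι ι ℤ_[l]) * Matrix.of X) := by
    rw [map_add, map_one, map_mul, map_natCast, ← sub_eq_iff_eq_add']
    ext i j
    have h2 : ((l : Matrix ι ι ℚ_[l]) * f (Matrix.of X)) i j = (l : ℚ_[l]) * f (Matrix.of X) i j := by
      rw [← nsmul_eq_mul, Matrix.smul_apply, nsmul_eq_mul]
    rw [h2, hX i j]
    rfl
  refine tendsto_pi_nhds.2 fun i => tendsto_pi_nhds.2 fun j => ?_
  have h4 : ∀ k : ℕ, ‖(A ^ (l ^ k)) i j - (1 : Matrix ι ι ℚ_[l]) i j‖ ≤ ((l : ℝ)⁻¹) ^ (k + 1) := by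
    intro k
    obtain ⟨Y, hY⟩ := pow_form hlp.out (Matrix.of X : Matrix ι ι ℤ_[l]) k
    rw [hA', ← map_pow, hY, map_add, map_one, map_mul, map_pow, map_natCast]
    have h5 : ((1 : Matrix ι ι ℚ_[l]) + (l : Matrix ι ι ℚ_[l]) ^ (k + 1) * f Y) i j - (1 : Matrix ι ι ℚ_[l]) i j = (l : ℚ_[l]) ^ (k + 1) * ((Y i j : ℤ_[l]) : ℚ_[l]) := by
      rw [Matrix.add_apply, add_sub_cancel_left, ← Nat.cast_pow, ← nsmul_eq_mul, Matrix.smul_apply, nsmul_eq_mul, Nat.cast_pow]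
      rfl
    rw [h5, norm_mul, norm_pow, Padic.norm_p]
    exact mul_le_of_le_one_right (by positivity) (PadicInt.norm_le_one _)
  rw [tendsto_iff_norm_sub_tendsto_zero]
  refine squeeze_zero (fun _ => norm_nonneg _) h4 ?_
  have h6 : Tendsto (fun k : ℕ => ((l : ℝ)⁻¹) ^ k) atTop (𝓝 0) := by
    refine tendsto_pow_atTop_nhds_zero_of_lt_one (by positivity) ?_
    exact inv_lt_one_of_one_lt₀ (by exact_mod_cast hlp.out.one_lt)
  exact (tendsto_add_atTop_iff_nat 1).2 h6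

variable {G : Type*} [Group G] [TopologicalSpace G] [IsTopologicalGroup G] [CompactSpace G]

/-- An element of the image which is near 1 is a square in the image. -/
theorem exists_sqrt (hl2 : l ≠ 2) (ρ : G →* Matrix.GeneralLinearGroup ι ℚ_[l]) (hc : Continuous fun g => (ρ g : Matrix ι ι ℚ_[l]))
    (g : G) (hg : ∀ i j, ‖((ρ g : Matrix ι ι ℚ_[l]) - 1) i j‖ < 1) : ∃ h : G, ρ h ^ 2 = ρ g := by
  obtain ⟨h, -, hh⟩ := isCompact_univ.exists_mapClusterPt (f := (atTop : Filter ℕ)) (u := fun k => g ^ ((l ^ k + 1) / 2)) (by simp)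
  obtain ⟨F, hF⟩ := mapClusterPt_iff_ultrafilter.1 hh
  refine ⟨h, Units.ext ?_⟩
  have hodd : ∀ k : ℕ, (l ^ k + 1) / 2 * 2 = l ^ k + 1 := by
    intro k
    have h1 : Odd (l ^ k) := (hlp.out.odd_of_ne_two hl2).pow
    exact Nat.div_mul_cancel (even_iff_two_dvd.1 h1.add_one)
  have h2 : Tendsto (fun k : ℕ => ((ρ (g ^ ((l ^ k + 1) / 2)) : Matrix ι ι ℚ_[l])) ^ 2) F (𝓝 ((ρ h : Matrix ι ι ℚ_[l]) ^ 2)) :=
    ((hc.tendsto h).comp hF.2).pow 2
  have h3 : Tendsto (fun k : ℕ => ((ρ (g ^ ((l ^ k + 1) / 2)) : Matrix ι ι ℚ_[l])) ^ 2) F (𝓝 (1 * (ρ g : Matrix ι ι ℚ_[l]))) := by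
    have h4 := ((tendsto_one (ρ g : Matrix ι ι ℚ_[l]) hg).mono_left hF.1).mul_const (ρ g : Matrix ι ι ℚ_[l])
    refine h4.congr fun k => ?_
    rw [map_pow, Units.val_pow_eq_pow_val, ← pow_mul, hodd k, pow_succ]
  rw [Units.val_pow_eq_pow_val, tendsto_nhds_unique h2 h3, one_mul]

/-- K1. The subgroup of all elements whose image is a product of squares of elements of the image is open. -/
theorem open_sq (hl2 : l ≠ 2) (ρ : G →* Matrix.GeneralLinearGroup ι ℚ_[l]) (hc : Continuous fun g => (ρ g : Matrix ι ι ℚ_[l])) :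
    IsOpen (((Subgroup.closure (Set.range fun g => ρ g ^ 2)).comap ρ : Subgroup G) : Set G) := by
  apply Subgroup.isOpen_of_mem_nhds (g := 1)
  have h1 : ∀ᶠ g in 𝓝 (1 : G), ∀ i j, ‖((ρ g : Matrix ι ι ℚ_[l]) - 1) i j‖ < 1 := by
    rw [eventually_all]
    intro i
    rw [eventually_all]
    intro j
    have h2 : Continuous fun g => ‖((ρ g : Matrix ι ι ℚ_[l]) - 1) i j‖ := by
      have h3 : Continuous fun g => ((ρ g : Matrix ι ι ℚ_[l]) - 1) i j := (hc.sub continuous_const).matrix_elem i j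
      exact h3.norm
    have h4 : ‖((ρ 1 : Matrix ι ι ℚ_[l]) - 1) i j‖ < 1 := by
      rw [map_one, Units.val_one, sub_self, Matrix.zero_apply, norm_zero]
      exact one_pos
    exact h2.tendsto 1 |>.eventually_lt_const h4
  filter_upwards [h1] with g hg
  obtain ⟨h, hh⟩ := exists_sqrt hl2 ρ hc g hg
  show ρ g ∈ Subgroup.closure (Set.range fun g => ρ g ^ 2)
  rw [← hh]
  exact Subgroup.subset_closure ⟨h, rfl⟩

end

/-- A subgroup which contains all squares is the kernel of a homomorphism to an abelian group of exponent two. -/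
theorem exists_char {G : Type} [Group G] (H : Subgroup G) (hH : ∀ g : G, g * g ∈ H) :
    ∃ (A : Type) (_ : CommGroup A) (χ : G →* A), χ.ker = H ∧ ∀ g, χ g * χ g = 1 := by
  have hn : H.Normal := by
    constructor
    intro h hh x
    have e : x * h * x⁻¹ = (x * h) * (x * h) * h⁻¹ * (x⁻¹ * x⁻¹) := by group
    rw [e]
    exact H.mul_mem (H.mul_mem (hH _) (H.inv_mem hh)) (hH _)
  have h2 : ∀ a : G ⧸ H, a * a = 1 := by
    intro a
    obtain ⟨g, rfl⟩ := QuotientGroup.mk_surjective a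
    rw [← QuotientGroup.mk_mul, QuotientGroup.eq_one_iff]
    exact hH g
  have hcomm : ∀ a b : G ⧸ H, a * b = b * a := by
    intro a b
    have h3 : ∀ c : G ⧸ H, c⁻¹ = c := fun c => inv_eq_of_mul_eq_one_left (h2 c)
    rw [← h3 (a * b), mul_inv_rev, h3, h3]
  exact ⟨G ⧸ H, { (inferInstance : Group (G ⧸ H)) with mul_comm := hcomm }, QuotientGroup.mk' H, QuotientGroup.ker_mk' H, fun g => h2 _⟩

end H45K
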