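import Pool.Agent.Lib.H45K.K5
import Pool.Agent.Lib.H76Q.Q1

/-! # K6: the clause cheb of Arith -/

open NumberField IsDedekindDomain Polynomial CFT

namespace H45K

open Pool.Agent.H76Q

section

variable {Ω : Type} [Field Ω] [CharZero Ω] [IsAlgClosed Ω] [Algebra.IsAlgebraic ℚ Ω]

/-- Automorphisms as ring isomorphisms. -/
def k6_hom : (Ω ≃ₐ[ℚ] Ω) →* (Ω ≃+* Ω) where
  toFun s := s.toRingEquiv
  map_one' := rfl
  map_mul' _ _ := rfl

theorem k6_gal : IsGalois ℚ Ω := by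
  have h1 : IsAlgClosure ℚ Ω := ⟨inferInstance, inferInstance⟩
  exact IsAlgClosure.isGalois ℚ Ω

/-- The fixed field of a subgroup which contains the stabiliser of a finite set. -/
theorem k6_field (Γ : Subgroup (Ω ≃+* Ω)) (hT : ∃ T : Finset Ω, ∀ s : Ω ≃+* Ω, (∀ x ∈ T, s x = x) → s ∈ Γ) :
    ∃ E : IntermediateField ℚ Ω, FiniteDimensional ℚ E ∧ (∀ x, x ∈ E ↔ ∀ s ∈ Γ, s x = x) ∧
      ∀ s : Ω ≃+* Ω, (∀ x ∈ E, s x = x) → s ∈ Γ := by
  have hG : IsGalois ℚ Ω := k6_gal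
  obtain ⟨T, hT⟩ := hT
  let Γ' : Subgroup (Ω ≃ₐ[ℚ] Ω) := Γ.comap k6_hom
  let ET : IntermediateField ℚ Ω := IntermediateField.adjoin ℚ (T : Set Ω)
  have hETfin : FiniteDimensional ℚ ET := by
    have : Finite (T : Set Ω) := T.finite_toSet.to_subtype
    exact IntermediateField.finiteDimensional_adjoin fun x _ => (Algebra.IsAlgebraic.isAlgebraic x).isIntegral
  have hle : ET.fixingSubgroup ≤ Γ' := by
    intro s hs
    refine hT _ fun x hx => ?_
    exact hs ⟨x, IntermediateField.subset_adjoin ℚ _ hx⟩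
  have hopen : IsOpen (Γ' : Set (Ω ≃ₐ[ℚ] Ω)) :=
    Subgroup.isOpen_mono hle (IntermediateField.fixingSubgroup_isOpen ET)
  have hclosed : IsClosed (Γ' : Set (Ω ≃ₐ[ℚ] Ω)) := Subgroup.isClosed_of_isOpen _ hopen
  have hring : ∀ s : Ω ≃+* Ω, ∃ s' : Ω ≃ₐ[ℚ] Ω, k6_hom s' = s := by
    intro s
    refine ⟨AlgEquiv.ofRingEquiv (f := s) fun r => ?_, ?_⟩
    · rw [eq_ratCast, map_ratCast]
    · ext x
      rfl
  let E : IntermediateField ℚ Ω := IntermediateField.fixedField Γ'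
  have hfix : E.fixingSubgroup = Γ' := InfiniteGalois.fixingSubgroup_fixedField ⟨Γ', hclosed⟩
  have hmem : ∀ x, x ∈ E ↔ ∀ s ∈ Γ, s x = x := by
    intro x
    rw [IntermediateField.mem_fixedField_iff]
    constructor
    · intro h s hs
      obtain ⟨s', rfl⟩ := hring s
      exact h s' hs
    · intro h s hs
      exact h _ hs
  refine ⟨E, ?_, hmem, fun s hs => ?_⟩
  · have h1 : E ≤ ET := by
      have h2 : IntermediateField.fixedField ET.fixingSubgroup = ET := InfiniteGalois.fixedField_fixingSubgroup ET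
      rw [← h2]
      intro x hx
      rw [IntermediateField.mem_fixedField_iff] at hx ⊢
      exact fun s hs => hx s (hle hs)
    exact Module.Finite.of_injective (IntermediateField.inclusion h1).toLinearMap (IntermediateField.inclusion h1).injective
  · obtain ⟨s', rfl⟩ := hring s
    have h1 : s' ∈ E.fixingSubgroup := by
      intro x
      exact hs x x.2
    rw [hfix] at h1
    exact h1

/-- The clause `cheb`. -/
theorem cheb (R : Finset Ω) (N : Set ℕ) (hN : N.Finite) (Γ : Subgroup (Ω ≃+* Ω))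
    (hT : ∃ T : Finset Ω, ∀ s : Ω ≃+* Ω, (∀ x ∈ T, s x = x) → s ∈ Γ)
    (hR : ∀ s ∈ Γ, ∀ r ∈ R, s r = r) (a : Ω) (ha : ∀ s ∈ Γ, s a = a)
    (h : ∀ (l : ℕ) [Fact l.Prime], l ∉ N → ∀ i : Ω →+* AlgebraicClosure ℚ_[l],
      Dec ℚ_[l] Γ i → (∀ r ∈ R, SqIn ℚ_[l] (i r)) → SqIn ℚ_[l] (i a)) :
    ∃ R' ⊆ R, ∃ c : Ω, (∀ s ∈ Γ, s c = c) ∧ a = (∏ r ∈ R', r) * c ^ 2 := by
  classical
  obtain ⟨E, hfin, hE1, hE2⟩ := k6_field Γ hT
  have hEn : NumberField E := NumberField.of_module_finite ℚ E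
  obtain ⟨B, hB⟩ := hN.bddAbove
  set A : Finset E := (R.filter (fun r => r ≠ 0)).attach.image
    (fun r => (⟨r.1, (hE1 _).2 fun s hs => hR s hs _ (Finset.mem_filter.1 r.2).1⟩ : E)) with hA
  have haE : a ∈ E := (hE1 a).2 ha
  obtain ⟨A', hA', hsq⟩ := k5_main E A ⟨a, haE⟩ B (fun l hl hlB j hj => by
    have hlN : l ∉ N := fun h => absurd (hB h) (not_le.2 hlB)
    let _ : Algebra E (AlgebraicClosure ℚ_[l]) := ((algebraMap ℚ_[l] (AlgebraicClosure ℚ_[l])).comp j).toAlgebra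
    have halg : Algebra.IsAlgebraic E Ω := Algebra.IsAlgebraic.tower_top (K := ℚ) E
    let i : Ω →ₐ[E] AlgebraicClosure ℚ_[l] := IsAlgClosed.lift
    have hi : ∀ x : E, i (x : Ω) = algebraMap ℚ_[l] (AlgebraicClosure ℚ_[l]) (j x) := fun x => i.commutes x
    have h1 := h l hlN i.toRingHom (fun t s hts => by
      refine hE2 s fun x hx => ?_
      apply i.toRingHom.injective
      show i (s x) = i x
      have h2 : t (i x) = i (s x) := hts x
      have h3 : i x = algebraMap ℚ_[l] (AlgebraicClosure ℚ_[l]) (j ⟨x, hx⟩) := hi ⟨x, hx⟩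
      rw [← h2, h3, t.commutes]) (fun r hr => by
      by_cases hr0 : r = 0
      · refine ⟨0, ?_⟩
        rw [hr0, map_zero, map_zero]
        ring
      · obtain ⟨y, hy⟩ := hj ⟨r, (hE1 _).2 fun s hs => hR s hs _ hr⟩ (by
          rw [hA, Finset.mem_image]
          exact ⟨⟨r, Finset.mem_filter.2 ⟨hr, hr0⟩⟩, Finset.mem_attach _ _, rfl⟩)
        refine ⟨y, ?_⟩
        rw [sq, ← map_mul, ← hy]
        exact hi ⟨r, _⟩)
    obtain ⟨y, hy⟩ := h1
    refine ⟨y, ?_⟩
    apply (algebraMap ℚ_[l] (AlgebraicClosure ℚ_[l])).injective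
    rw [← hi, map_mul, ← sq]
    exact hy)
  obtain ⟨c, hc⟩ := hsq
  have hinj : Function.Injective (fun x : E => (x : Ω)) := Subtype.coe_injective
  refine ⟨A'.image (fun x : E => (x : Ω)), ?_, (c : Ω) * (∏ r ∈ A'.image (fun x : E => (x : Ω)), r)⁻¹, ?_, ?_⟩
  · intro x hx
    rw [Finset.mem_image] at hx
    obtain ⟨y, hy, rfl⟩ := hx
    have h1 := hA' hy
    rw [hA, Finset.mem_image] at h1
    obtain ⟨z, -, rfl⟩ := h1
    exact (Finset.mem_filter.1 z.2).1
  · have h1 : (c : Ω) * (∏ r ∈ A'.image (fun x : E => (x : Ω)), r)⁻¹ ∈ E := by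
      refine E.mul_mem c.2 (E.inv_mem (E.prod_mem fun x hx => ?_))
      rw [Finset.mem_image] at hx
      obtain ⟨y, -, rfl⟩ := hx
      exact y.2
    exact (hE1 _).1 h1
  · have h1 : (∏ r ∈ A'.image (fun x : E => (x : Ω)), r) ≠ 0 := by
      rw [Finset.prod_ne_zero_iff]
      intro x hx
      rw [Finset.mem_image] at hx
      obtain ⟨y, hy, rfl⟩ := hx
      have h2 := hA' hy
      rw [hA, Finset.mem_image] at h2
      obtain ⟨z, -, rfl⟩ := h2
      exact (Finset.mem_filter.1 z.2).2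
    have h2 : (∏ r ∈ A'.image (fun x : E => (x : Ω)), r) = ((∏ x ∈ A', x : E) : Ω) := by
      rw [Finset.prod_image (fun x _ y _ hxy => hinj hxy)]
      exact (map_prod (algebraMap E Ω) _ _).symm
    have h3 : (∏ r ∈ A'.image (fun x : E => (x : Ω)), r) * a = (c : Ω) * c := by
      rw [h2]
      exact congrArg (fun x : E => (x : Ω)) hc
    field_simp
    rw [mul_comm, h3]
    ring

end

end H45K
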