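import Pool.Agent.Lib.H45K.K70

/-! # H45K, K7: automorphisms which act trivially on residue classes fix the number fields unramified at `p` -/

set_option autoImplicit false

namespace H45K

open NumberField

theorem IsV.pv_det {K : Type*} [Field K] {v : K → ℚ} (hv : IsV v) {n : Type*} [Fintype n] [DecidableEq n] (A : Matrix n n K) (c : n)
    (h1 : ∀ i j, NN v (A i j)) (h2 : ∀ i, PV v (A i c)) : PV v A.det := by
  rw [Matrix.det_apply]
  refine hv.pv_sum _ _ fun σ _ => ?_
  have h3 : PV v (∏ i, A (σ i) i) := by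
    rw [← Finset.mul_prod_erase Finset.univ (fun i => A (σ i) i) (Finset.mem_univ c)]
    exact hv.pv_mul (h2 _) (hv.nn_prod _ _ fun i _ => h1 _ _)
  rcases Int.units_eq_one_or (Equiv.Perm.sign σ) with h | h
  · rw [h, one_smul]
    exact h3
  · rw [h, Units.neg_smul, one_smul]
    exact hv.pv_neg h3

theorem disc_eq (F : Type*) [Field F] [NumberField F] (K : Type*) [Field K] [CharZero K] [IsAlgClosed K]
    (e : Module.Free.ChooseBasisIndex ℤ (𝓞 F) ≃ (F →ₐ[ℚ] K)) :
    ((NumberField.discr F : ℤ) : K) = (Algebra.embeddingsMatrixReindex ℚ K (integralBasis F) e).det ^ 2 := by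
  rw [← Algebra.discr_eq_det_embeddingsMatrixReindex_pow_two, ← NumberField.coe_discr]
  simp

/-- K7. If `p` does not divide the discriminant then an automorphism `δ` with `δ x ≡ x` for all integral `x` fixes all images of `F`. -/
theorem rfix {K : Type*} [Field K] [CharZero K] [IsAlgClosed K] {v : K → ℚ} (hv : IsV v) {p : ℕ} (hp : p.Prime) (h1 : v (p : K) = 1)
    (F : Type*) [Field F] [NumberField F] (hd : ¬ (p : ℤ) ∣ NumberField.discr F) (δ : K ≃+* K)
    (dres : ∀ x : K, x ≠ 0 → 0 ≤ v x → δ x = x ∨ 0 < v (δ x - x)) (φ : F →+* K) (c : F) : δ (φ c) = φ c := by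
  classical
  let a : F →ₐ[ℚ] K := φ.toRatAlgHom
  let b : F →ₐ[ℚ] K := ((δ : K →+* K).comp φ).toRatAlgHom
  by_contra hcon
  have hab : a ≠ b := by
    intro h
    have := DFunLike.congr_fun h c
    exact hcon this.symm
  have hcard : Fintype.card (Module.Free.ChooseBasisIndex ℤ (𝓞 F)) = Fintype.card (F →ₐ[ℚ] K) := by
    rw [AlgHom.card ℚ F K, ← Module.finrank_eq_card_basis (integralBasis F)]
  let e : Module.Free.ChooseBasisIndex ℤ (𝓞 F) ≃ (F →ₐ[ℚ] K) := Fintype.equivOfCardEq hcard
  have hdisc := disc_eq F K e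
  obtain ⟨A, hA⟩ : ∃ A, A = Algebra.embeddingsMatrixReindex ℚ K (integralBasis F) e := ⟨_, rfl⟩
  rw [← hA] at hdisc
  have hent : ∀ i j, A i j = (e j) (integralBasis F i) := by
    intro i j
    rw [hA]
    rfl
  have hint : ∀ i, IsIntegral ℤ (integralBasis F i) := by
    intro i
    rw [integralBasis_apply]
    exact RingOfIntegers.isIntegral_coe _
  have hnn : ∀ i j, NN v (A i j) := by
    intro i j
    rw [hent]
    exact hv.nn_integral ((hint i).map ((e j).restrictScalars ℤ))
  have hne : e.symm b ≠ e.symm a := fun h => hab (e.symm.injective h).symm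
  have hdet := Matrix.det_updateCol_add_smul_self A hne (-1)
  have hpv : PV v A.det := by
    rw [← hdet]
    refine hv.pv_det _ (e.symm b) (fun i j => ?_) fun i => ?_
    · rw [Matrix.updateCol_apply]
      split_ifs
      · show NN v (A i (e.symm b) + (-1 : K) • A i (e.symm a))
        rw [neg_smul, one_smul]
        exact hv.nn_add (hnn _ _) (hv.nn_neg (hnn _ _))
      · exact hnn _ _
    · rw [Matrix.updateCol_self]
      show PV v (A i (e.symm b) + (-1 : K) • A i (e.symm a))
      rw [hent, hent, Equiv.apply_symm_apply, Equiv.apply_symm_apply, neg_smul, one_smul, ← sub_eq_add_neg]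
      show PV v (δ (φ (integralBasis F i)) - φ (integralBasis F i))
      have h3 : NN v (φ (integralBasis F i)) := hv.nn_integral ((hint i).map (φ.toIntAlgHom))
      rcases h3 with h3 | h3
      · rw [h3, map_zero, sub_self]
        exact pv_zero
      · by_cases h4 : φ (integralBasis F i) = 0
        · rw [h4, map_zero, sub_self]
          exact pv_zero
        · rcases dres _ h4 h3 with h5 | h5
          · rw [h5, sub_self]
            exact pv_zero
          · exact Or.inr h5
  have h6 : PV v (A.det ^ 2) := by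
    rw [sq]
    exact hv.pv_mul hpv hpv.nn
  rw [← hdisc] at h6
  rcases h6 with h6 | h6
  · rw [Int.cast_eq_zero] at h6
    exact hd (h6 ▸ dvd_zero _)
  · rw [hv.int_unit hp h1 hd] at h6
    exact lt_irrefl _ h6

end H45K
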