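import Pool.Agent.Lib.H45K.K70

/-! # H45K, K9: two eigenvalues of Frobenius with the same valuations at all places above `p` differ by a root of unity -/

set_option autoImplicit false
set_option linter.unusedSectionVars false

namespace H45K

open Polynomial

section

variable {Om : Type*} [Field Om] [CharZero Om] [IsAlgClosed Om] [Algebra.IsAlgebraic ℚ Om]
variable {K : Type*} [Field K] [CharZero K] [IsAlgClosed K] {v : K → ℚ}

/-- A rational number `c` with `p ^ k * c` an integer and `0 ≤ v c` is an integer. -/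
theorem rat_int (hv : IsV v) {p : ℕ} (hp : p.Prime) (h1 : v (p : K) = 1) (c : ℚ) (k : ℕ) (m : ℤ) (hm : (p : ℚ) ^ k * c = m)
    (hc : NN v ((c : ℚ) : K)) : ∃ n : ℤ, c = n := by
  by_cases hc0 : c = 0
  · exact ⟨0, by rw [hc0, Int.cast_zero]⟩
  have hpq : (p : ℚ) ≠ 0 := Nat.cast_ne_zero.2 hp.ne_zero
  have hm0 : m ≠ 0 := by
    rintro rfl
    rw [Int.cast_zero, mul_eq_zero] at hm
    rcases hm with h | h
    · exact pow_ne_zero k hpq h
    · exact hc0 h
  obtain ⟨j, m', hm', hmm⟩ : ∃ (j : ℕ) (m' : ℤ), ¬ (p : ℤ) ∣ m' ∧ m = (p : ℤ) ^ j * m' := by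
    have hfin : FiniteMultiplicity (p : ℤ) m := Int.finiteMultiplicity_iff.2 ⟨by
      rw [Int.natAbs_natCast]
      exact hp.ne_one, hm0⟩
    obtain ⟨m', h2, h3⟩ := hfin.exists_eq_pow_mul_and_not_dvd
    exact ⟨_, m', h3, h2⟩
  have hcK : ((c : ℚ) : K) ≠ 0 := by
    rw [Ne, Rat.cast_eq_zero]
    exact hc0
  have hpK : (p : K) ≠ 0 := Nat.cast_ne_zero.2 hp.ne_zero
  have hv1 : v ((p : K) ^ k * ((c : ℚ) : K)) = v ((p : K) ^ j * (m' : K)) := by
    congr 1
    have h4 := congrArg (fun z : ℚ => (z : K)) hm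
    simp only [Rat.cast_mul, Rat.cast_pow, Rat.cast_natCast, Rat.cast_intCast] at h4
    rw [h4, hmm]
    push_cast
    rfl
  have hm'0 : (m' : K) ≠ 0 := by
    intro h
    rw [Int.cast_eq_zero] at h
    exact hm' (h ▸ dvd_zero _)
  rw [hv.mul _ _ (pow_ne_zero k hpK) hcK, hv.mul _ _ (pow_ne_zero j hpK) hm'0, hv.pow hpK, hv.pow hpK, h1, hv.int_unit hp h1 hm'] at hv1
  have h5 : 0 ≤ v ((c : ℚ) : K) := hc.resolve_left hcK
  have h6 : (k : ℚ) ≤ j := by linarith
  have h7 : k ≤ j := by exact_mod_cast h6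
  refine ⟨(p : ℤ) ^ (j - k) * m', ?_⟩
  have h8 : (p : ℚ) ^ k * c = (p : ℚ) ^ k * (((p : ℤ) ^ (j - k) * m' : ℤ) : ℚ) := by
    rw [hm, hmm]
    push_cast
    rw [← mul_assoc, ← pow_add]
    congr 2
    omega
  exact mul_left_cancel₀ (pow_ne_zero k hpq) h8

theorem coeff_ms (hv : IsV v) (i : Om →+* K) (p : ℕ) (s : Multiset Om) (h1 : ∀ z ∈ s, NN v (i z)) (h2 : ∀ z ∈ s, IsIntegral ℤ ((p : Om) * z))
    (k : ℕ) : NN v (i ((s.map fun z => X - C z).prod.coeff k)) ∧
      IsIntegral ℤ ((p : Om) ^ s.card * (s.map fun z => X - C z).prod.coeff k) := by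
  induction s using Multiset.induction_on generalizing k with
  | empty =>
    rw [Multiset.map_zero, Multiset.prod_zero, Multiset.card_zero, pow_zero, one_mul, coeff_one]
    split_ifs
    · rw [map_one]
      exact ⟨hv.nn_one, isIntegral_one⟩
    · rw [map_zero]
      exact ⟨nn_zero, isIntegral_zero⟩
  | cons z s ih =>
    have ih' := ih (fun w hw => h1 w (Multiset.mem_cons_of_mem hw)) fun w hw => h2 w (Multiset.mem_cons_of_mem hw)
    have hz1 := h1 z (Multiset.mem_cons_self z s)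
    have hz2 := h2 z (Multiset.mem_cons_self z s)
    rw [Multiset.map_cons, Multiset.prod_cons, Multiset.card_cons]
    have hpi : IsIntegral ℤ (p : Om) := by
      have := isIntegral_algebraMap (R := ℤ) (A := Om) (x := (p : ℤ))
      rwa [eq_intCast, Int.cast_natCast] at this
    cases k with
    | zero =>
      rw [mul_coeff_zero, coeff_sub, coeff_X_zero, coeff_C_zero, zero_sub, neg_mul]
      refine ⟨?_, ?_⟩
      · rw [map_neg, map_mul]
        exact hv.nn_neg (hv.nn_mul hz1 (ih' 0).1)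
      · have e : (p : Om) ^ (s.card + 1) * -(z * (s.map fun z => X - C z).prod.coeff 0) =
            -(((p : Om) * z) * ((p : Om) ^ s.card * (s.map fun z => X - C z).prod.coeff 0)) := by ring
        rw [e]
        exact (hz2.mul (ih' 0).2).neg
    | succ k =>
      rw [sub_mul, coeff_sub, coeff_X_mul, coeff_C_mul]
      refine ⟨?_, ?_⟩
      · rw [map_sub, map_mul, sub_eq_add_neg]
        exact hv.nn_add (ih' k).1 (hv.nn_neg (hv.nn_mul hz1 (ih' (k + 1)).1))
      · have e : (p : Om) ^ (s.card + 1) * ((s.map fun z => X - C z).prod.coeff k - z * (s.map fun z => X - C z).prod.coeff (k + 1)) =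
            (p : Om) * ((p : Om) ^ s.card * (s.map fun z => X - C z).prod.coeff k) -
              ((p : Om) * z) * ((p : Om) ^ s.card * (s.map fun z => X - C z).prod.coeff (k + 1)) := by ring
        rw [e]
        exact (hpi.mul (ih' k).2).sub (hz2.mul (ih' (k + 1)).2)

/-- The coefficients of the minimal polynomial. -/
theorem int_of_val (hv : IsV v) {p : ℕ} (hp : p.Prime) (h1 : v (p : K) = 1) (ζ : Om) (hζ : IsIntegral ℤ ((p : Om) * ζ))
    (h : ∀ i : Om →+* K, NN v (i ζ)) : IsIntegral ℤ ζ := by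
  classical
  obtain ⟨g, hg⟩ : ∃ g, g = minpoly ℚ ζ := ⟨_, rfl⟩
  have hgm : g.Monic := by
    rw [hg]
    exact minpoly.monic (Algebra.IsAlgebraic.isAlgebraic ζ).isIntegral
  have hspl : (g.map (algebraMap ℚ Om)).Splits := IsAlgClosed.splits _
  have i₀ : Om →+* K := (IsAlgClosed.lift : Om →ₐ[ℚ] K).toRingHom
  have hroot : ∀ z ∈ (g.map (algebraMap ℚ Om)).roots, ∃ s : Om →+* Om, s ζ = z := by
    intro z hz
    rw [mem_roots', IsRoot.def, eval_map_algebraMap] at hz
    have h2 : minpoly ℚ ζ = minpoly ℚ z := by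
      rw [← hg]
      exact minpoly.eq_of_irreducible_of_monic (hg ▸ minpoly.irreducible (Algebra.IsAlgebraic.isAlgebraic ζ).isIntegral) hz.2 hgm
    obtain ⟨s, hs⟩ := IntermediateField.exists_algHom_of_splits_of_aeval (K := Om) (F := ℚ) (E := Om)
      (fun x => ⟨(Algebra.IsAlgebraic.isAlgebraic x).isIntegral, IsAlgClosed.splits _⟩) (x := ζ) (y := z) (by
        rw [h2]
        exact minpoly.aeval ℚ z)
    exact ⟨s.toRingHom, hs⟩
  have hint : ∀ z ∈ (g.map (algebraMap ℚ Om)).roots, IsIntegral ℤ ((p : Om) * z) := by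
    intro z hz
    obtain ⟨s, rfl⟩ := hroot z hz
    have h3 := hζ.map s.toIntAlgHom
    have h4 : s.toIntAlgHom ((p : Om) * ζ) = (p : Om) * s ζ := by
      show s ((p : Om) * ζ) = _
      rw [map_mul, map_natCast]
    rwa [h4] at h3
  have hnn : ∀ z ∈ (g.map (algebraMap ℚ Om)).roots, NN v (i₀ z) := by
    intro z hz
    obtain ⟨s, rfl⟩ := hroot z hz
    exact h (i₀.comp s)
  have hcoef : ∀ k, ∃ n : ℤ, g.coeff k = n := by
    intro k
    obtain ⟨h3, h4⟩ := coeff_ms hv i₀ p (g.map (algebraMap ℚ Om)).roots hnn hint k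
    have hprod : ((g.map (algebraMap ℚ Om)).roots.map fun z => X - C z).prod = g.map (algebraMap ℚ Om) := by
      have h5 := hspl.eq_prod_roots
      rw [(hgm.map (algebraMap ℚ Om)).leadingCoeff, C_1, one_mul] at h5
      exact h5.symm
    rw [hprod, coeff_map] at h3 h4
    have h6 : IsIntegral ℤ ((p : ℚ) ^ (Multiset.card (g.map (algebraMap ℚ Om)).roots) * g.coeff k) := by
      have h7 : (p : Om) ^ (Multiset.card (g.map (algebraMap ℚ Om)).roots) * algebraMap ℚ Om (g.coeff k) =
          algebraMap ℚ Om ((p : ℚ) ^ (Multiset.card (g.map (algebraMap ℚ Om)).roots) * g.coeff k) := by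
        rw [map_mul, map_pow, map_natCast]
      rw [h7] at h4
      exact (isIntegral_algebraMap_iff (algebraMap ℚ Om).injective).1 h4
    obtain ⟨m, hm⟩ := IsIntegrallyClosed.isIntegral_iff.1 h6
    refine rat_int hv hp h1 (g.coeff k) _ m hm.symm ?_
    have h8 : i₀ (algebraMap ℚ Om (g.coeff k)) = ((g.coeff k : ℚ) : K) := by
      rw [eq_ratCast, map_ratCast]
    rwa [h8] at h3
  have hlift : g ∈ Polynomial.lifts (Int.castRingHom ℚ) := by
    rw [lifts_iff_coeff_lifts]
    intro k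
    obtain ⟨n, hn⟩ := hcoef k
    exact ⟨n, by rw [hn]; rfl⟩
  obtain ⟨G, hG1, hG2, hG3⟩ := lifts_and_natDegree_eq_and_monic hlift hgm
  refine ⟨G, hG3, ?_⟩
  have h9 : aeval ζ g = 0 := by
    rw [hg]
    exact minpoly.aeval ℚ ζ
  rw [← hG1, aeval_def, eval₂_map] at h9
  rw [show algebraMap ℤ Om = (algebraMap ℚ Om).comp (Int.castRingHom ℚ) from RingHom.ext_int _ _]
  exact h9

/-- K9. The valuations at the places above `p` separate the eigenvalues of Frobenius, up to roots of unity. -/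
theorem gal (hv : IsV v) {p : ℕ} (hp : p.Prime) (h1 : v (p : K) = 1) (f : ℤ[X]) (hf : f.Monic)
    (hW : ∀ z : ℂ, aeval z f = 0 → ‖z‖ ^ 2 = p) {a a' : Om} (ha : aeval a f = 0) (ha' : aeval a' f = 0)
    (hne : ∀ n : ℕ, n ≠ 0 → (a / a') ^ n ≠ 1) : ∃ i : Om →+* K, v (i a) ≠ v (i a') := by
  by_contra hcon
  push Not at hcon
  have hroot : ∀ (x : Om), aeval x f = 0 → ∀ c : Om →+* ℂ, ‖c x‖ ^ 2 = p := by
    intro x hx c
    refine hW _ ?_
    have h2 := congrArg c hx
    rw [map_zero, aeval_def, hom_eval₂] at h2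
    rw [aeval_def, show algebraMap ℤ ℂ = c.comp (algebraMap ℤ Om) from RingHom.ext_int _ _]
    exact h2
  have c₀ : Om →+* ℂ := (IsAlgClosed.lift : Om →ₐ[ℚ] ℂ).toRingHom
  have hpR : (p : ℝ) ≠ 0 := Nat.cast_ne_zero.2 hp.ne_zero
  have h0 : ∀ (x : Om), aeval x f = 0 → x ≠ 0 := by
    rintro x hx rfl
    have h2 := hroot 0 hx c₀
    rw [map_zero, norm_zero, zero_pow two_ne_zero] at h2
    exact hpR h2.symm
  have hinv : aeval ((p : Om) / a') f = 0 := by
    apply c₀.injective
    rw [map_zero, aeval_def, hom_eval₂]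
    have h2 := hroot a' ha' c₀
    have h3 : c₀ ((p : Om) / a') = (starRingEnd ℂ) (c₀ a') := by
      rw [map_div₀, map_natCast, div_eq_iff ((map_ne_zero c₀).2 (h0 a' ha')), mul_comm, Complex.mul_conj, Complex.normSq_eq_norm_sq, h2]
      simp
    rw [h3]
    have h4 : eval₂ (c₀.comp (algebraMap ℤ Om)) ((starRingEnd ℂ) (c₀ a')) f = (starRingEnd ℂ) (c₀ (aeval a' f)) := by
      rw [aeval_def, hom_eval₂, hom_eval₂]
      congr 1
      exact RingHom.ext_int _ _
    rw [h4, ha', map_zero, map_zero]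
  have hia : IsIntegral ℤ a := ⟨f, hf, ha⟩
  have hia' : IsIntegral ℤ ((p : Om) / a') := ⟨f, hf, hinv⟩
  have hpz : IsIntegral ℤ ((p : Om) * (a / a')) := by
    have e : (p : Om) * (a / a') = a * ((p : Om) / a') := by ring
    rw [e]
    exact hia.mul hia'
  have hz0 : a / a' ≠ 0 := div_ne_zero (h0 a ha) (h0 a' ha')
  have hzi : IsIntegral ℤ (a / a') := by
    refine int_of_val hv hp h1 _ hpz fun i => Or.inr ?_
    rw [map_div₀, hv.div ((map_ne_zero i).2 (h0 a ha)) ((map_ne_zero i).2 (h0 a' ha')), hcon i, sub_self]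
  have hfd : FiniteDimensional ℚ (IntermediateField.adjoin ℚ {a / a'}) :=
    IntermediateField.adjoin.finiteDimensional (Algebra.IsAlgebraic.isAlgebraic (a / a')).isIntegral
  have hNF : NumberField (IntermediateField.adjoin ℚ {a / a'}) := {}
  have hgi : IsIntegral ℤ (IntermediateField.AdjoinSimple.gen ℚ (a / a')) := by
    have h2 : IsIntegral ℤ (algebraMap (IntermediateField.adjoin ℚ {a / a'}) Om (IntermediateField.AdjoinSimple.gen ℚ (a / a'))) := by
      rw [IntermediateField.AdjoinSimple.algebraMap_gen]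
      exact hzi
    exact (isIntegral_algebraMap_iff (algebraMap (IntermediateField.adjoin ℚ {a / a'}) Om).injective).1 h2
  obtain ⟨n, hn, hn1⟩ := NumberField.Embeddings.pow_eq_one_of_norm_eq_one (IntermediateField.adjoin ℚ {a / a'}) ℂ hgi fun φ => by
    obtain ⟨s, hs⟩ := IntermediateField.exists_algHom_of_splits_of_aeval (K := ℂ) (F := ℚ) (E := Om)
      (fun x => ⟨(Algebra.IsAlgebraic.isAlgebraic x).isIntegral, IsAlgClosed.splits _⟩) (x := a / a')
      (y := φ (IntermediateField.AdjoinSimple.gen ℚ (a / a'))) (by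
        have h2 := aeval_algHom_apply φ.toRatAlgHom (IntermediateField.AdjoinSimple.gen ℚ (a / a')) (minpoly ℚ (a / a'))
        have h3 : aeval (IntermediateField.AdjoinSimple.gen ℚ (a / a')) (minpoly ℚ (a / a')) = 0 := by
          apply (algebraMap (IntermediateField.adjoin ℚ {a / a'}) Om).injective
          rw [map_zero, ← aeval_algebraMap_apply, IntermediateField.AdjoinSimple.algebraMap_gen]
          exact minpoly.aeval ℚ _
        rw [h3, map_zero] at h2
        exact h2)
    rw [← hs]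
    have h4 := hroot a ha s.toRingHom
    have h5 := hroot a' ha' s.toRingHom
    rw [← h4] at h5
    have h6 : ‖s a‖ = ‖s a'‖ := by
      have h7 : ‖s a'‖ ^ 2 = ‖s a‖ ^ 2 := h5
      exact ((sq_eq_sq₀ (norm_nonneg _) (norm_nonneg _)).1 h7).symm
    rw [map_div₀, norm_div, h6, div_self]
    rw [norm_ne_zero_iff]
    exact (map_ne_zero s).2 (h0 a' ha')
  refine hne n (by omega) ?_
  have h8 := congrArg (algebraMap (IntermediateField.adjoin ℚ {a / a'}) Om) hn1
  rwa [map_pow, IntermediateField.AdjoinSimple.algebraMap_gen, map_one] at h8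

end

end H45K
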