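import Pool.Agent.Lib.H45K.K10a
import Pool.Agent.Lib.H45K.K6
import Pool.Agent.Lib.H45K.K7
import Pool.Agent.Lib.H45K.K9
import Pool.Agent.Lib.H76Q.CoreP

/-! # K10: the final theorem over a number field F -/

set_option autoImplicit false
set_option linter.unusedSectionVars false

namespace Pool.Agent.H76Q
open Module Matrix Polynomial Pool.Agent.H53Toric NumberField IsDedekindDomain
open Pool.Agent.H76P (properProj EigOn)
open Pool.Agent.H76U (IsSplitting)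
open Pool.Agent.H76RM (spanK similD)

theorem IsVal.isV {K : Type*} [Field K] {v : K → ℚ} (h : IsVal v) : H45K.IsV v := ⟨h.mul, h.add⟩

/-- Arithmetic input over a number field `F`: `G = Gal(Ω/F)`, the place `w = (π)` of degree one above `p`. -/
theorem final {ι : Type} [Fintype ι] [DecidableEq ι] {ψ : Matrix ι ι ℚ} (hψ : ψᵀ = -ψ)
    (hψ0 : ψ.det ≠ 0) (D : Subalgebra ℚ (Matrix ι ι ℚ)) {M : Type*} [Field M] [NumberField M]
    {m : ℕ} (e : Fin m → Matrix ι ι M) (hspl : IsSplitting D ψ id e)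
    {F : Type} [Field F] [NumberField F] {Ω : Type} [Field Ω] [CharZero Ω] [Algebra F Ω] [IsAlgClosure F Ω]
    (ρ : ∀ (l : ℕ) [Fact l.Prime], (Ω ≃ₐ[F] Ω) →* Matrix.GeneralLinearGroup ι ℚ_[l])
    (cont : ∀ (l : ℕ) [Fact l.Prime], Continuous (ρ l))
    (S : Finset (HeightOneSpectrum (𝓞 F)))
    (unr : ∀ (l : ℕ) [Fact l.Prime], ∀ v ∉ S, (l : 𝓞 F) ∉ v.asIdeal → ∀ P : Ideal (𝓞 Ω), P.IsPrime →
      P.comap (algebraMap (𝓞 F) (𝓞 Ω)) = v.asIdeal → ∀ g : Ω ≃ₐ[F] Ω, (∀ x : 𝓞 Ω, g • x - x ∈ P) → ρ l g = 1)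
    (lin : ∀ (l : ℕ) [Fact l.Prime], ∀ g : Ω ≃ₐ[F] Ω, ∀ d ∈ D,
      (ρ l g).1 * d.map (algebraMap ℚ ℚ_[l]) = d.map (algebraMap ℚ ℚ_[l]) * (ρ l g).1)
    (sim : ∀ (l : ℕ) [Fact l.Prime], ∀ g : Ω ≃ₐ[F] Ω, ∃ c : ℚ_[l],
      (ρ l g).1ᵀ * ψ.map (algebraMap ℚ ℚ_[l]) * (ρ l g).1 = c • ψ.map (algebraMap ℚ ℚ_[l]))
    (semis : ∀ (l : ℕ) [Fact l.Prime], ∀ H : Subgroup (Ω ≃ₐ[F] Ω), H.FiniteIndex →
      ∀ W : Submodule (AlgebraicClosure ℚ_[l]) (ι → AlgebraicClosure ℚ_[l]),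
      (∀ s ∈ img (AlgebraicClosure ℚ_[l]) (ρ l) H, ∀ w ∈ W, s *ᵥ w ∈ W) →
      ∃ W' : Submodule (AlgebraicClosure ℚ_[l]) (ι → AlgebraicClosure ℚ_[l]),
        (∀ s ∈ img (AlgebraicClosure ℚ_[l]) (ρ l) H, ∀ w ∈ W', s *ᵥ w ∈ W') ∧ IsCompl W W')
    (commt : ∀ (l : ℕ) [Fact l.Prime], ∀ H : Subgroup (Ω ≃ₐ[F] Ω), H.FiniteIndex →
      ∀ y : Matrix ι ι (AlgebraicClosure ℚ_[l]),
      (∀ s ∈ img (AlgebraicClosure ℚ_[l]) (ρ l) H, y * s = s * y) →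
        y ∈ spanK (AlgebraicClosure ℚ_[l]) D)
    (gen : ∀ (l : ℕ) [Fact l.Prime], ∀ g : Ω ≃ₐ[F] Ω,
      (ρ l g).1.map (algebraMap ℚ_[l] (AlgebraicClosure ℚ_[l])) ∈
        tgen (AlgebraicClosure ℚ_[l]) (ρ l))
    (p : ℕ) [Fact p.Prime] (hdisc : ¬ (p : ℤ) ∣ discr F)
    (w : HeightOneSpectrum (𝓞 F)) (hw : w ∉ S) (hwp : Ideal.absNorm w.asIdeal = p)
    (π : 𝓞 F) (hπ : w.asIdeal = Ideal.span {π}) (hpos : ∀ τ : F →+* ℝ, 0 < τ π)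
    (hsq : ∀ v ∈ S, ∀ N : ℕ, ∃ y : F, v.valuation F (π - y ^ 2) < WithZero.exp (-(N : ℤ)))
    (σ : Ω ≃ₐ[F] Ω) (P : Ideal (𝓞 Ω)) (hP : P.IsPrime) (hPw : P.comap (algebraMap (𝓞 F) (𝓞 Ω)) = w.asIdeal)
    (hσ : ∀ x : 𝓞 Ω, σ • x - x ^ p ∈ P)
    (f : ℤ[X]) (hf : f.Monic) (weil : ∀ z : ℂ, aeval z f = 0 → ‖z‖ ^ 2 = p) (Fb : Fin m → M[X])
    (mult : ∀ (l : ℕ) [Fact l.Prime], l ≠ p →
      (ρ l σ).1ᵀ * ψ.map (algebraMap ℚ ℚ_[l]) * (ρ l σ).1 = (p : ℚ_[l]) • ψ.map (algebraMap ℚ ℚ_[l]))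
    (char : ∀ (l : ℕ) [Fact l.Prime], l ≠ p → (ρ l σ).1.charpoly = f.map (algebraMap ℤ ℚ_[l]))
    (frob : ∀ (l : ℕ) [Fact l.Prime], l ≠ p →
      FrobT (AlgebraicClosure ℚ_[l]) (ρ l) e Fb
        ((ρ l σ).1.map (algebraMap ℚ_[l] (AlgebraicClosure ℚ_[l]))))
    (cyc : ∃ s : Ω ≃ₐ[F] Ω, ∃ c : ℚ_[p], (ρ p s).1ᵀ * ψ.map (algebraMap ℚ ℚ_[p]) * (ρ p s).1 =
      c • ψ.map (algebraMap ℚ ℚ_[p]) ∧ ∀ n : ℕ, n ≠ 0 → c ^ n ≠ 1)
    (φ μ ν : Matrix ι ι (AlgebraicClosure ℚ_[p])) (v : AlgebraicClosure ℚ_[p] → ℚ) (hvp : v p = 1)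
    (frobp : FrobT (AlgebraicClosure ℚ_[p]) (ρ p) e Fb φ)
    (multp : φᵀ * ψ.map (algebraMap ℚ (AlgebraicClosure ℚ_[p])) * φ =
      (p : AlgebraicClosure ℚ_[p]) • ψ.map (algebraMap ℚ (AlgebraicClosure ℚ_[p])))
    (charp : φ.charpoly = f.map (algebraMap ℤ (AlgebraicClosure ℚ_[p])))
    (crys : CrysP (AlgebraicClosure ℚ_[p]) (ρ p) e σ φ μ ν v
      {δ | (∀ c : ℚ_[p], δ (algebraMap ℚ_[p] _ c) = algebraMap ℚ_[p] _ c) ∧
        ∀ x, x ≠ 0 → 0 ≤ v x → δ x = x ∨ 0 < v (δ x - x)})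
    (j : M →+* Ω)
    (neat : ∀ b, ∀ a a' : Ω, (Fb b).eval₂ j a = 0 → (Fb b).eval₂ j a' = 0 → a ≠ a' → ∀ n : ℕ, n ≠ 0 → a ^ n ≠ a' ^ n)
    (trans : ∀ b, ∀ τ τ' : F →+* Ω, ∃ s : Ω ≃+* Ω, s.toRingHom.comp τ = τ' ∧
      Linked D ((e b).map j) ((e b).map (s.toRingHom.comp j)))
    (power : ∀ b (a k : ℕ), 2 ≤ k → k ∣ Module.finrank ℚ F → (e b).rank ≠ a ^ k)
    (two : ∀ b (k : ℕ), 4 ≤ k → (e b).rank ≠ 2 ^ k)
    (binom : ∀ b (k : ℕ), 3 ≤ k → Odd k → (e b).rank ≠ k.centralBinom) :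
    ∀ (l : ℕ) [Fact l.Prime], ∀ H : Subgroup (Ω ≃ₐ[F] Ω), H.FiniteIndex →
      monodromy (AlgebraicClosure ℚ_[l]) (ρ l) H = similD (AlgebraicClosure ℚ_[l]) ψ D := by
  classical
  have hp : p.Prime := Fact.out
  have hcl : IsAlgClosed Ω := IsAlgClosure.isAlgClosed F
  have halgF : Algebra.IsAlgebraic F Ω := IsAlgClosure.isAlgebraic
  have halg : Algebra.IsAlgebraic ℚ Ω := Algebra.IsAlgebraic.trans ℚ F Ω
  have hdv : CFT.dv (π : F) = Finsupp.single w 1 := H45K.dv_gen hπ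
  have hfin : Finite (F →+* Ω) := inferInstance
  have : Fintype (F →+* Ω) := Fintype.ofFinite _
  set R : Finset Ω := Finset.univ.image (fun τ : F →+* Ω => τ (π : F)) with hRdef
  have hR : ∀ x, x ∈ R ↔ ∃ τ : F →+* Ω, τ (π : F) = x := by
    intro x
    rw [hRdef, Finset.mem_image]
    simp
  have hval := crys.val.isV
  have hcard := H45K.card_R hdv hp hwp hR
  have hRfix : ∀ i : Ω →+* AlgebraicClosure ℚ_[p], ∀ r ∈ R, ∀ δ : AlgebraicClosure ℚ_[p] ≃+* AlgebraicClosure ℚ_[p],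
      ((∀ c : ℚ_[p], δ (algebraMap ℚ_[p] _ c) = algebraMap ℚ_[p] _ c) ∧
        ∀ x, x ≠ 0 → 0 ≤ v x → δ x = x ∨ 0 < v (δ x - x)) → δ (i r) = i r := by
    intro i r hr δ hδ
    obtain ⟨τ, rfl⟩ := (hR r).1 hr
    exact H45K.rfix hval hp hvp F hdisc δ hδ.2 (i.comp τ) (π : F)
  have hpΩ : (p : ℚ_[p]) ≠ 0 := by exact_mod_cast hp.ne_zero
  have hmapQ : ∀ (K : Type) [Field K] [CharZero K] [Algebra ℚ K],
      (f.map (algebraMap ℤ ℚ)).map (algebraMap ℚ K) = f.map (algebraMap ℤ K) := by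
    intro K _ _ _
    rw [Polynomial.map_map]
    congr 1
    exact RingHom.ext_int _ _
  -- roots of F_b are roots of f
  have hroot : ∀ b, ∀ a : Ω, (Fb b).eval₂ j a = 0 → aeval a f = 0 := by
    intro b a ha
    obtain ⟨l, hl, hlp⟩ : ∃ l : ℕ, l.Prime ∧ l ≠ p := by
      by_cases h : p = 2
      · exact ⟨3, Nat.prime_three, by rw [h]; norm_num⟩
      · exact ⟨2, Nat.prime_two, fun h' => h h'.symm⟩
    have hlf : Fact l.Prime := ⟨hl⟩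
    let i : Ω →ₐ[ℚ] AlgebraicClosure ℚ_[l] := IsAlgClosed.lift
    have h1 := (frob l hlp).eig (i.toRingHom.comp j) b (i.toRingHom a)
    rw [← Polynomial.hom_eval₂, ha, map_zero] at h1
    obtain ⟨z, hz, -, hz2⟩ := h1.2 rfl
    have h2 := H45K.root_of_eig hz hz2
    rw [Matrix.charpoly_map, char l hlp, Polynomial.map_map, Polynomial.eval_map] at h2
    have h3 : (algebraMap ℚ_[l] (AlgebraicClosure ℚ_[l])).comp (algebraMap ℤ ℚ_[l]) = i.toRingHom.comp (algebraMap ℤ Ω) :=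
      RingHom.ext_int _ _
    rw [h3, ← Polynomial.hom_eval₂] at h2
    rw [aeval_def]
    exact (map_eq_zero i.toRingHom).1 h2
  refine core_thm hψ hψ0 D e hspl ρ lin sim semis commt gen p σ (p : ℚ) ?_ (f.map (algebraMap ℤ ℚ)) Fb ?_ ?_ frob cyc φ μ ν v
    _ frobp ?_ ?_ crys ?_ j R {2, p} (by simp) ⟨?_, ?_⟩ ?_ ?_ hRfix ?_ ?_ ?_ two binom
  · intro n hn
    have h1 : (1 : ℚ) < p := by exact_mod_cast hp.one_lt
    exact (one_lt_pow₀ h1 hn).ne'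
  · intro l _ hl
    rw [map_natCast]
    exact mult l hl
  · intro l _ hl
    rw [hmapQ]
    exact char l hl
  · rw [map_natCast]
    exact multp
  · rw [hmapQ]
    exact charp
  · rw [map_natCast]
    exact hvp
  · intro l hl hlN i hi
    have hl2 : l ≠ 2 := fun h => hlN (by simp [h])
    have hlp : l ≠ p := fun h => hlN (by simp [h])
    refine H45K.recl hl2 (ρ l) (Units.continuous_val.comp (cont l)) S (fun v hv hlv P hP g hg => unr l v hv hlv P hP.1 hP.2 g hg)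
      w hw ?_ σ ⟨P, ⟨hP, hPw⟩, ?_⟩ (π : F) hdv hpos hsq i (fun τ => hi _ ((hR _).2 ⟨τ, rfl⟩))
    · intro hlw
      have hpw : ((p : ℕ) : 𝓞 F) ∈ w.asIdeal := by
        rw [← hwp]
        exact Ideal.absNorm_mem _
      have h1 : IsCoprime (l : ℤ) (p : ℤ) := by
        rw [Nat.isCoprime_iff_coprime]
        exact (Nat.coprime_primes hl.out hp).2 hlp
      obtain ⟨u, t, hut⟩ := h1
      apply w.isPrime.ne_top
      rw [Ideal.eq_top_iff_one]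
      have h3 : (1 : 𝓞 F) = (u : 𝓞 F) * (l : 𝓞 F) + (t : 𝓞 F) * (p : 𝓞 F) := by
        have := congrArg (fun t : ℤ => (t : 𝓞 F)) hut
        push_cast at this
        exact this.symm
      rw [h3]
      exact w.asIdeal.add_mem (w.asIdeal.mul_mem_left _ hlw) (w.asIdeal.mul_mem_left _ hpw)
    · intro x
      have h1 : CFT.Nm w = p := hwp
      rw [h1]
      exact hσ x
  · intro Γ hT hΓR a _ ha h
    exact H45K.cheb R {2, p} (by simp) Γ hT hΓR a ha h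
  · exact fun s r hr => H45K.R_stab hR s hr
  · intro i
    refine H45K.rval hval hvp hdv hp hwp hR i fun r hr => ?_
    refine crys.dval (i r) ?_ (fun δ hδ => hRfix i r hr δ hδ)
    obtain ⟨τ, rfl⟩ := (hR r).1 hr
    rw [Ne, map_eq_zero, map_eq_zero]
    exact H45K.pi_ne hdv
  · intro b r hr r' hr'
    obtain ⟨τ, rfl⟩ := (hR r).1 hr
    obtain ⟨τ', rfl⟩ := (hR r').1 hr'
    obtain ⟨s, hs, hl⟩ := trans b τ τ'
    exact ⟨s, congrArg (fun t : F →+* Ω => t (π : F)) hs, hl⟩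
  · intro b a a' ha ha' hne
    refine H45K.gal hval hp hvp f hf weil (hroot b a ha) (hroot b a' ha') fun n hn h1 => ?_
    rw [div_pow] at h1
    by_cases h0 : a' = 0
    · rw [h0, zero_pow hn, div_zero] at h1
      exact zero_ne_one h1
    · exact neat b a a' ha ha' hne n hn (by rwa [div_eq_one_iff_eq (pow_ne_zero _ h0)] at h1)
  · intro b a k hk hkd
    rw [hcard] at hkd
    exact power b a k hk hkd

end Pool.Agent.H76Q
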