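import Mathlib

/-! # H45K: rational valued valuations, elementary facts

`NN v x`: `x = 0` or `0 ≤ v x`. `PV v x`: `x = 0` or `0 < v x`. -/

set_option autoImplicit false

namespace H45K

/-- `v` is a valuation with values in `ℚ` (its value at `0` is not used). -/
structure IsV {K : Type*} [Field K] (v : K → ℚ) : Prop where
  mul : ∀ x y : K, x ≠ 0 → y ≠ 0 → v (x * y) = v x + v y
  add : ∀ x y : K, x ≠ 0 → y ≠ 0 → x + y ≠ 0 → min (v x) (v y) ≤ v (x + y)

section

variable {K : Type*} [Field K] {v : K → ℚ}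

/-- Integral. -/
def NN (v : K → ℚ) (x : K) : Prop := x = 0 ∨ 0 ≤ v x

/-- In the maximal ideal. -/
def PV (v : K → ℚ) (x : K) : Prop := x = 0 ∨ 0 < v x

theorem PV.nn {x : K} (h : PV v x) : NN v x := h.imp id le_of_lt

theorem IsV.one (hv : IsV v) : v 1 = 0 := by
  have h := hv.mul 1 1 one_ne_zero one_ne_zero
  rw [mul_one] at h
  linarith

theorem IsV.neg_one (hv : IsV v) : v (-1) = 0 := by
  have h := hv.mul (-1) (-1) (neg_ne_zero.2 one_ne_zero) (neg_ne_zero.2 one_ne_zero)
  rw [neg_mul_neg, mul_one, hv.one] at h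
  linarith

theorem IsV.neg (hv : IsV v) {x : K} (hx : x ≠ 0) : v (-x) = v x := by
  have h := hv.mul (-1) x (neg_ne_zero.2 one_ne_zero) hx
  rw [neg_one_mul, hv.neg_one, zero_add] at h
  exact h

theorem IsV.inv (hv : IsV v) {x : K} (hx : x ≠ 0) : v x⁻¹ = -v x := by
  have h := hv.mul x x⁻¹ hx (inv_ne_zero hx)
  rw [mul_inv_cancel₀ hx, hv.one] at h
  linarith

theorem IsV.div (hv : IsV v) {x y : K} (hx : x ≠ 0) (hy : y ≠ 0) : v (x / y) = v x - v y := by
  rw [div_eq_mul_inv, hv.mul x y⁻¹ hx (inv_ne_zero hy), hv.inv hy]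
  ring

theorem IsV.pow (hv : IsV v) {x : K} (hx : x ≠ 0) (n : ℕ) : v (x ^ n) = n * v x := by
  induction n with
  | zero => rw [pow_zero, hv.one, Nat.cast_zero, zero_mul]
  | succ n ih =>
    rw [pow_succ, hv.mul _ _ (pow_ne_zero n hx) hx, ih]
    push_cast
    ring

theorem nn_zero : NN v (0 : K) := Or.inl rfl

theorem pv_zero : PV v (0 : K) := Or.inl rfl

theorem IsV.nn_one (hv : IsV v) : NN v (1 : K) := Or.inr hv.one.ge

theorem IsV.nn_neg (hv : IsV v) {x : K} (h : NN v x) : NN v (-x) := by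
  by_cases hx : x = 0
  · rw [hx, neg_zero]
    exact nn_zero
  · exact Or.inr (by rw [hv.neg hx]; exact h.resolve_left hx)

theorem IsV.pv_neg (hv : IsV v) {x : K} (h : PV v x) : PV v (-x) := by
  by_cases hx : x = 0
  · rw [hx, neg_zero]
    exact pv_zero
  · exact Or.inr (by rw [hv.neg hx]; exact h.resolve_left hx)

theorem IsV.nn_add (hv : IsV v) {x y : K} (hx : NN v x) (hy : NN v y) : NN v (x + y) := by
  by_cases hx0 : x = 0
  · rw [hx0, zero_add]
    exact hy
  by_cases hy0 : y = 0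
  · rw [hy0, add_zero]
    exact hx
  by_cases hxy : x + y = 0
  · exact Or.inl hxy
  · exact Or.inr ((le_min (hx.resolve_left hx0) (hy.resolve_left hy0)).trans (hv.add x y hx0 hy0 hxy))

theorem IsV.pv_add (hv : IsV v) {x y : K} (hx : PV v x) (hy : PV v y) : PV v (x + y) := by
  by_cases hx0 : x = 0
  · rw [hx0, zero_add]
    exact hy
  by_cases hy0 : y = 0
  · rw [hy0, add_zero]
    exact hx
  by_cases hxy : x + y = 0
  · exact Or.inl hxy
  · exact Or.inr ((lt_min (hx.resolve_left hx0) (hy.resolve_left hy0)).trans_le (hv.add x y hx0 hy0 hxy))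

theorem IsV.nn_mul (hv : IsV v) {x y : K} (hx : NN v x) (hy : NN v y) : NN v (x * y) := by
  by_cases hx0 : x = 0
  · exact Or.inl (by rw [hx0, zero_mul])
  by_cases hy0 : y = 0
  · exact Or.inl (by rw [hy0, mul_zero])
  exact Or.inr (by rw [hv.mul x y hx0 hy0]; exact add_nonneg (hx.resolve_left hx0) (hy.resolve_left hy0))

theorem IsV.pv_mul (hv : IsV v) {x y : K} (hx : PV v x) (hy : NN v y) : PV v (x * y) := by
  by_cases hx0 : x = 0
  · exact Or.inl (by rw [hx0, zero_mul])
  by_cases hy0 : y = 0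
  · exact Or.inl (by rw [hy0, mul_zero])
  exact Or.inr (by rw [hv.mul x y hx0 hy0]; exact add_pos_of_pos_of_nonneg (hx.resolve_left hx0) (hy.resolve_left hy0))

theorem IsV.not_pv_one (hv : IsV v) : ¬ PV v (1 : K) := by
  rintro (h | h)
  · exact one_ne_zero h
  · rw [hv.one] at h
    exact lt_irrefl _ h

theorem IsV.nn_sum (hv : IsV v) {ι : Type*} (s : Finset ι) (f : ι → K) (h : ∀ i ∈ s, NN v (f i)) : NN v (∑ i ∈ s, f i) := by
  classical
  induction s using Finset.induction_on with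
  | empty => exact nn_zero
  | insert a s ha ih =>
    rw [Finset.sum_insert ha]
    exact hv.nn_add (h a (Finset.mem_insert_self a s)) (ih fun i hi => h i (Finset.mem_insert_of_mem hi))

theorem IsV.pv_sum (hv : IsV v) {ι : Type*} (s : Finset ι) (f : ι → K) (h : ∀ i ∈ s, PV v (f i)) : PV v (∑ i ∈ s, f i) := by
  classical
  induction s using Finset.induction_on with
  | empty => exact pv_zero
  | insert a s ha ih =>
    rw [Finset.sum_insert ha]
    exact hv.pv_add (h a (Finset.mem_insert_self a s)) (ih fun i hi => h i (Finset.mem_insert_of_mem hi))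

theorem IsV.nn_prod (hv : IsV v) {ι : Type*} (s : Finset ι) (f : ι → K) (h : ∀ i ∈ s, NN v (f i)) : NN v (∏ i ∈ s, f i) := by
  classical
  induction s using Finset.induction_on with
  | empty => exact hv.nn_one
  | insert a s ha ih =>
    rw [Finset.prod_insert ha]
    exact hv.nn_mul (h a (Finset.mem_insert_self a s)) (ih fun i hi => h i (Finset.mem_insert_of_mem hi))

theorem IsV.nn_nat (hv : IsV v) (n : ℕ) : NN v (n : K) := by
  induction n with
  | zero => exact Or.inl Nat.cast_zero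
  | succ n ih =>
    rw [Nat.cast_succ]
    exact hv.nn_add ih hv.nn_one

theorem IsV.nn_int (hv : IsV v) (n : ℤ) : NN v (n : K) := by
  obtain ⟨m, rfl | rfl⟩ := n.eq_nat_or_neg
  · rw [Int.cast_natCast]
    exact hv.nn_nat m
  · rw [Int.cast_neg, Int.cast_natCast]
    exact hv.nn_neg (hv.nn_nat m)

/-- Integers prime to `p` are units. -/
theorem IsV.int_unit (hv : IsV v) [CharZero K] {p : ℕ} (hp : p.Prime) (h1 : v (p : K) = 1) {n : ℤ} (hn : ¬ (p : ℤ) ∣ n) :
    v (n : K) = 0 := by
  have hn0 : (n : K) ≠ 0 := by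
    intro h
    rw [Int.cast_eq_zero] at h
    exact hn (h ▸ dvd_zero _)
  have h2 : 0 ≤ v (n : K) := (hv.nn_int n).resolve_left hn0
  by_contra hne
  have h3 : PV v (n : K) := Or.inr (lt_of_le_of_ne h2 (Ne.symm hne))
  have hcop : IsCoprime n (p : ℤ) := by
    rw [isCoprime_comm]
    exact (Prime.coprime_iff_not_dvd (Nat.prime_iff_prime_int.1 hp)).2 hn
  obtain ⟨a, b, hab⟩ := hcop
  have h4 : (1 : K) = (n : K) * (a : K) + (p : K) * (b : K) := by
    have := congrArg (fun z : ℤ => (z : K)) hab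
    push_cast at this
    rw [← this]
    ring
  have h5 : PV v (p : K) := Or.inr (by rw [h1]; exact one_pos)
  exact hv.not_pv_one (by rw [h4]; exact hv.pv_add (hv.pv_mul h3 (hv.nn_int a)) (hv.pv_mul h5 (hv.nn_int b)))

/-- Algebraic integers are integral. -/
theorem IsV.nn_integral (hv : IsV v) {x : K} (hx : IsIntegral ℤ x) : NN v x := by
  by_cases hx0 : x = 0
  · exact Or.inl hx0
  by_contra hcon
  unfold NN at hcon
  push Not at hcon
  have hneg : v x < 0 := hcon.2
  obtain ⟨f, hf, hfx⟩ := hx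
  have hinv : PV v x⁻¹ := Or.inr (by rw [hv.inv hx0]; linarith)
  have hn : f.natDegree ≠ 0 := by
    intro h0
    have h1 := Polynomial.eq_one_of_monic_natDegree_zero hf h0
    rw [h1, Polynomial.eval₂_one] at hfx
    exact one_ne_zero hfx
  rw [Polynomial.eval₂_eq_sum_range, Finset.sum_range_succ, hf.coeff_natDegree, map_one, one_mul] at hfx
  have h2 : (1 : K) = -∑ i ∈ Finset.range f.natDegree, (algebraMap ℤ K (f.coeff i)) * x⁻¹ ^ (f.natDegree - i) := by
    have h3 : x ^ f.natDegree ≠ 0 := pow_ne_zero _ hx0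
    have h4 : (∑ i ∈ Finset.range f.natDegree, (algebraMap ℤ K (f.coeff i)) * x ^ i) * (x ^ f.natDegree)⁻¹ =
        ∑ i ∈ Finset.range f.natDegree, (algebraMap ℤ K (f.coeff i)) * x⁻¹ ^ (f.natDegree - i) := by
      rw [Finset.sum_mul]
      refine Finset.sum_congr rfl fun i hi => ?_
      have hi' : i < f.natDegree := Finset.mem_range.1 hi
      rw [mul_assoc]
      congr 1
      rw [inv_pow, ← div_eq_mul_inv, div_eq_iff h3, ← div_eq_inv_mul]
      rw [eq_div_iff (pow_ne_zero _ hx0), ← pow_add]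
      congr 1
      omega
    rw [← h4]
    have h5 : (∑ i ∈ Finset.range f.natDegree, (algebraMap ℤ K (f.coeff i)) * x ^ i) = -x ^ f.natDegree :=
      eq_neg_of_add_eq_zero_left hfx
    rw [h5, neg_mul, mul_inv_cancel₀ h3, neg_neg]
  refine hv.not_pv_one ?_
  rw [h2]
  refine hv.pv_neg (hv.pv_sum _ _ fun i hi => ?_)
  have hi' : i < f.natDegree := Finset.mem_range.1 hi
  rw [mul_comm]
  refine hv.pv_mul ?_ (hv.nn_int _)
  refine Or.inr ?_
  rw [hv.pow (inv_ne_zero hx0)]
  have h6 : 0 < v x⁻¹ := hinv.resolve_left (inv_ne_zero hx0)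
  have h7 : (0 : ℚ) < ((f.natDegree - i : ℕ) : ℚ) := by
    rw [Nat.cast_pos]
    omega
  exact mul_pos h7 h6

end

end H45K
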