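import Pool.Agent.Lib.CFT.B05
import Pool.Agent.Lib.CFT.B02
import Pool.Agent.Lib.CFT.B01
import Pool.Agent.Lib.H45K.K70

/-! # H45K, K8: the conjugates of a generator of a prime ideal of degree one -/

set_option autoImplicit false
set_option linter.unusedSectionVars false

namespace H45K

open NumberField CFT

variable {F : Type} [Field F] [NumberField F] {w : Pr F} {π : F} {p : ℕ}

theorem pi_ne (hπ : dv π = Finsupp.single w 1) : π ≠ 0 := by
  rintro rfl
  have h3 := congrArg (fun f : Dv F => f w) hπ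
  simp only [dv_apply, od_zero, Finsupp.single_eq_same] at h3
  exact zero_ne_one h3

theorem norm_pi (hπ : dv π = Finsupp.single w 1) (hw : Nm w = p) : |Algebra.norm ℚ π| = p := by
  rw [← nD_dv (pi_ne hπ), hπ]
  unfold nD
  rw [Finsupp.prod_single_index (by simp)]
  rw [hw]
  simp

theorem pi_int (hπ : dv π = Finsupp.single w 1) : IsIntegral ℤ π := by
  classical
  obtain ⟨r, hr⟩ := int_of_od (x := π) fun v => by
    rw [← dv_apply, hπ, Finsupp.single_apply]
    split_ifs
    · exact zero_le_one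
    · exact le_refl _
  rw [← hr]
  exact RingOfIntegers.isIntegral_coe r

theorem adj_top (hπ : dv π = Finsupp.single w 1) (hp : p.Prime) (hw : Nm w = p) : IntermediateField.adjoin ℚ {π} = ⊤ := by
  have h1 := Algebra.norm_eq_norm_adjoin ℚ π
  have hint : IsIntegral ℤ (IntermediateField.AdjoinSimple.gen ℚ π) := by
    have h2 : IsIntegral ℤ (algebraMap (IntermediateField.adjoin ℚ {π}) F (IntermediateField.AdjoinSimple.gen ℚ π)) := by
      rw [IntermediateField.AdjoinSimple.algebraMap_gen]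
      exact pi_int hπ
    exact (isIntegral_algebraMap_iff (algebraMap (IntermediateField.adjoin ℚ {π}) F).injective).1 h2
  obtain ⟨m, hm⟩ := IsIntegrallyClosed.isIntegral_iff.1 (Algebra.isIntegral_norm ℚ hint)
  have hpow : (m.natAbs) ^ Module.finrank (IntermediateField.adjoin ℚ {π}) F = p := by
    have h3 : |(algebraMap ℤ ℚ m)| ^ Module.finrank (IntermediateField.adjoin ℚ {π}) F = p := by
      have h8 := norm_pi hπ hw
      rw [h1, abs_pow] at h8
      rw [hm]
      exact h8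
    have h4 : |(algebraMap ℤ ℚ m)| = ((m.natAbs : ℕ) : ℚ) := by
      rw [Nat.cast_natAbs]
      simp
    rw [h4] at h3
    exact_mod_cast h3
  have hk : Module.finrank (IntermediateField.adjoin ℚ {π}) F = 1 := by
    have h5 : Prime p := hp.prime
    by_contra hne
    have h6 : ¬ (Module.finrank (IntermediateField.adjoin ℚ {π}) F = 0) := by
      have : 0 < Module.finrank (IntermediateField.adjoin ℚ {π}) F := Module.finrank_pos
      omega
    have h7 : 2 ≤ Module.finrank (IntermediateField.adjoin ℚ {π}) F := by omega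
    exact (Nat.Prime.not_prime_pow h7) (hpow ▸ hp)
  exact IntermediateField.finrank_eq_one_iff_eq_top.1 hk

variable {Om : Type*} [Field Om] [CharZero Om] [IsAlgClosed Om] {R : Finset Om}

theorem inj_pi (hπ : dv π = Finsupp.single w 1) (hp : p.Prime) (hw : Nm w = p) :
    Function.Injective fun τ : F →ₐ[ℚ] Om => τ π := by
  intro τ τ' h
  have h1 : Algebra.adjoin ℚ {π} = ⊤ := by
    rw [← IntermediateField.adjoin_simple_toSubalgebra_of_isAlgebraic (IsAlgebraic.of_finite ℚ π), adj_top hπ hp hw,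
      IntermediateField.top_toSubalgebra]
  refine AlgHom.ext_of_adjoin_eq_top h1 fun x hx => ?_
  rw [Set.mem_singleton_iff.1 hx]
  exact h

/-- K8a. The conjugates of `π` are distinct. -/
theorem card_R (hπ : dv π = Finsupp.single w 1) (hp : p.Prime) (hw : Nm w = p) (hR : ∀ x, x ∈ R ↔ ∃ τ : F →+* Om, τ π = x) :
    R.card = Module.finrank ℚ F := by
  classical
  rw [← AlgHom.card ℚ F Om, ← Finset.card_univ]
  symm
  refine Finset.card_bij (fun τ _ => τ π) (fun τ _ => (hR _).2 ⟨τ, rfl⟩) (fun a _ b _ h => inj_pi hπ hp hw h) fun x hx => ?_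
  obtain ⟨τ, hτ⟩ := (hR x).1 hx
  exact ⟨τ.toRatAlgHom, Finset.mem_univ _, hτ⟩

/-- K8b. Their product is the norm. -/
theorem prod_R (hπ : dv π = Finsupp.single w 1) (hp : p.Prime) (hw : Nm w = p) (hR : ∀ x, x ∈ R ↔ ∃ τ : F →+* Om, τ π = x) :
    ∏ r ∈ R, r = (p : Om) ∨ ∏ r ∈ R, r = -(p : Om) := by
  classical
  have h1 : ∏ r ∈ R, r = ∏ τ : F →ₐ[ℚ] Om, τ π := by
    symm
    refine Finset.prod_bij (fun τ _ => τ π) (fun τ _ => (hR _).2 ⟨τ, rfl⟩) (fun a _ b _ h => inj_pi hπ hp hw h) (fun x hx => ?_)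
      fun _ _ => rfl
    obtain ⟨τ, hτ⟩ := (hR x).1 hx
    exact ⟨τ.toRatAlgHom, Finset.mem_univ _, hτ⟩
  rw [h1, ← Algebra.norm_eq_prod_embeddings ℚ Om π]
  have h2 := norm_pi hπ hw
  rcases abs_eq (Nat.cast_nonneg p) |>.1 h2 with h3 | h3
  · left
    rw [h3, map_natCast]
  · right
    rw [h3, map_neg, map_natCast]

/-- K8c. If the values of the conjugates are integers, exactly one is 1 and the others are 0. -/
theorem rval {K : Type*} [Field K] [CharZero K] {v : K → ℚ} (hv : IsV v) (h1 : v (p : K) = 1) (hπ : dv π = Finsupp.single w 1)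
    (hp : p.Prime) (hw : Nm w = p) (hR : ∀ x, x ∈ R ↔ ∃ τ : F →+* Om, τ π = x) (i : Om →+* K)
    (hZ : ∀ r ∈ R, ∃ n : ℤ, v (i r) = n) : ∃ r ∈ R, v (i r) = 1 ∧ ∀ r' ∈ R, r' ≠ r → v (i r') = 0 := by
  classical
  have hint : ∀ r ∈ R, IsIntegral ℤ (i r) := by
    intro r hr
    obtain ⟨τ, rfl⟩ := (hR r).1 hr
    exact (pi_int hπ).map (i.comp τ).toIntAlgHom
  have hne : ∀ r ∈ R, i r ≠ 0 := by
    intro r hr
    obtain ⟨τ, rfl⟩ := (hR r).1 hr
    exact (map_ne_zero i).2 ((map_ne_zero τ).2 (pi_ne hπ))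
  have hnn : ∀ r ∈ R, 0 ≤ v (i r) := fun r hr => (hv.nn_integral (hint r hr)).resolve_left (hne r hr)
  have hprod : ∀ T : Finset Om, T ⊆ R → v (i (∏ r ∈ T, r)) = ∑ r ∈ T, v (i r) := by
    intro T
    induction T using Finset.induction_on with
    | empty =>
      intro _
      rw [Finset.prod_empty, map_one, hv.one, Finset.sum_empty]
    | insert a T ha ih =>
      intro hT
      rw [Finset.prod_insert ha, map_mul, Finset.sum_insert ha, ← ih fun x hx => hT (Finset.mem_insert_of_mem hx)]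
      refine hv.mul _ _ (hne a (hT (Finset.mem_insert_self a T))) ?_
      rw [map_prod]
      exact Finset.prod_ne_zero_iff.2 fun x hx => hne x (hT (Finset.mem_insert_of_mem hx))
  have hp0 : (p : K) ≠ 0 := Nat.cast_ne_zero.2 hp.ne_zero
  have hsum : ∑ r ∈ R, v (i r) = 1 := by
    rw [← hprod R (Finset.Subset.refl R)]
    rcases prod_R hπ hp hw hR with h | h
    · rw [h, map_natCast, h1]
    · rw [h, map_neg, map_natCast, hv.neg hp0, h1]
  choose! n hn using hZ
  have hn0 : ∀ r ∈ R, 0 ≤ n r := by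
    intro r hr
    have h2 := hnn r hr
    rw [hn r hr] at h2
    exact_mod_cast h2
  have hnsum : ∑ r ∈ R, n r = 1 := by
    have h2 : ∑ r ∈ R, v (i r) = ∑ r ∈ R, ((n r : ℤ) : ℚ) := Finset.sum_congr rfl hn
    rw [hsum] at h2
    exact_mod_cast h2.symm
  obtain ⟨r, hr, hr1⟩ : ∃ r ∈ R, n r ≠ 0 := by
    by_contra hcon
    push Not at hcon
    rw [Finset.sum_eq_zero hcon] at hnsum
    exact zero_ne_one hnsum
  have h3 : n r + ∑ r' ∈ R.erase r, n r' = 1 := by
    rw [Finset.add_sum_erase R n hr]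
    exact hnsum
  have h4 : 0 ≤ ∑ r' ∈ R.erase r, n r' := Finset.sum_nonneg fun x hx => hn0 x (Finset.mem_of_mem_erase hx)
  have h5 : 1 ≤ n r := by
    have := hn0 r hr
    omega
  have h6 : n r = 1 := by omega
  have h7 : ∑ r' ∈ R.erase r, n r' = 0 := by omega
  refine ⟨r, hr, ?_, fun r' hr' hne' => ?_⟩
  · rw [hn r hr, h6, Int.cast_one]
  · have h8 := (Finset.sum_eq_zero_iff_of_nonneg fun x hx => hn0 x (Finset.mem_of_mem_erase hx)).1 h7 r'
      (Finset.mem_erase.2 ⟨hne', hr'⟩)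
    rw [hn r' hr', h8, Int.cast_zero]

/-- The set `R` is stable under the automorphisms of `Om`. -/
theorem R_stab (hR : ∀ x, x ∈ R ↔ ∃ τ : F →+* Om, τ π = x) (s : Om ≃+* Om) {r : Om} (hr : r ∈ R) : s r ∈ R := by
  obtain ⟨τ, rfl⟩ := (hR r).1 hr
  exact (hR _).2 ⟨(s : Om →+* Om).comp τ, rfl⟩

end H45K
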