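import Pool.Agent.Lib.H45K.K3
import Pool.Agent.Lib.H45K.K8
import Pool.Agent.Lib.CFT.B01

/-! # K10a: preparations for the final theorem -/

open NumberField IsDedekindDomain CFT Polynomial

namespace H45K

section

variable {F : Type} [Field F] [NumberField F]

theorem dv_gen {w : Pr F} {π : 𝓞 F} (hw : w.asIdeal = Ideal.span {π}) : dv (π : F) = Finsupp.single w 1 := by
  have hπ : π ≠ 0 := by
    rintro rfl
    apply w.ne_bot
    rw [hw, Ideal.span_singleton_eq_bot]
  have hπF : (π : F) ≠ 0 := by
    intro h
    apply hπ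
    apply RingOfIntegers.coe_injective
    rw [map_zero]
    exact h
  ext v
  rw [dv_apply]
  by_cases h : v = w
  · rw [h, Finsupp.single_eq_same]
    have h1 : w.valuation F (algebraMap (𝓞 F) F π) = WithZero.exp (-1 : ℤ) := by
      rw [HeightOneSpectrum.valuation_of_algebraMap, w.intValuation_singleton hπ hw]
    have h2 := val_eq w hπF
    have h3 : w.valuation F (π : F) = WithZero.exp (-1 : ℤ) := h1
    rw [h3, WithZero.exp_inj] at h2
    omega
  · rw [Finsupp.single_eq_of_ne (fun h' => h h')]
    have h1 : ¬ 0 < od v (π : F) := by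
      rw [od_pos_iff v hπ]
      intro h2
      apply h
      have h3 : w.asIdeal ≤ v.asIdeal := by
        rw [hw, Ideal.span_singleton_le_iff_mem]
        exact h2
      exact (HeightOneSpectrum.ext (w.isMaximal.eq_of_le v.isPrime.ne_top h3)).symm
    have h2 := od_nonneg v π
    omega

end

section

/-- An eigenvalue is a root of the characteristic polynomial. -/
theorem root_of_eig {ι K : Type*} [Fintype ι] [DecidableEq ι] [Field K] {x : Matrix ι ι K} {c : K} {z : ι → K} (hz : z ≠ 0)
    (h : x.mulVec z = c • z) : x.charpoly.eval c = 0 := by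
  rw [Matrix.eval_charpoly, ← Matrix.exists_mulVec_eq_zero_iff]
  refine ⟨z, hz, ?_⟩
  rw [Matrix.sub_mulVec, h, sub_eq_zero]
  rw [Matrix.scalar_apply, Matrix.diagonal_const_mulVec]

end

end H45K
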