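import Pool.Agent.Lib.H76Q.Q5

/-! # K11: the p-adic valuation of the closure of Q_p -/

set_option autoImplicit false
set_option linter.unusedSectionVars false

namespace H45K
open Pool.Agent.H76Q

variable {p : ℕ} [hp : Fact p.Prime] {v : AlgebraicClosure ℚ_[p] → ℚ}

theorem pval_norm (hv : IsPVal p v) {x : AlgebraicClosure ℚ_[p]} (hx : x ≠ 0) : ‖(x : PadicAlgCl p)‖ = (p : ℝ) ^ (-(v x : ℝ)) := hv x hx

theorem pval_inj {a b : ℚ} (h : (p : ℝ) ^ (-(a : ℝ)) = (p : ℝ) ^ (-(b : ℝ))) : a = b := by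
  have h1 : (1 : ℝ) < p := by exact_mod_cast hp.out.one_lt
  have h2 := (Real.rpow_le_rpow_left_iff h1).1 h.le
  have h3 := (Real.rpow_le_rpow_left_iff h1).1 h.ge
  have h4 : (a : ℝ) = b := by linarith
  exact_mod_cast h4

theorem pval_isVal (hv : IsPVal p v) : IsVal v := by
  have h1 : (1 : ℝ) < p := by exact_mod_cast hp.out.one_lt
  have h0 : (0 : ℝ) < p := by linarith
  constructor
  · intro x y hx hy
    refine pval_inj (p := p) ?_
    rw [← pval_norm hv (mul_ne_zero hx hy), norm_mul, pval_norm hv hx, pval_norm hv hy, ← Real.rpow_add h0]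
    congr 1
    push_cast
    ring
  · intro x y hx hy hxy
    have h2 := PadicAlgCl.isNonarchimedean p x y
    rw [pval_norm hv hx, pval_norm hv hy, pval_norm hv hxy, le_max_iff, Real.rpow_le_rpow_left_iff h1,
      Real.rpow_le_rpow_left_iff h1] at h2
    rw [min_le_iff]
    rcases h2 with h2 | h2
    · left
      have h3 : (v x : ℝ) ≤ v (x + y) := by linarith
      exact_mod_cast h3
    · right
      have h3 : (v y : ℝ) ≤ v (x + y) := by linarith
      exact_mod_cast h3

theorem pval_p (hv : IsPVal p v) : v (p : AlgebraicClosure ℚ_[p]) = 1 := by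
  have h1 : (1 : ℝ) < p := by exact_mod_cast hp.out.one_lt
  have h0 : (0 : ℝ) < p := by linarith
  have hp0 : (p : AlgebraicClosure ℚ_[p]) ≠ 0 := by exact_mod_cast hp.out.ne_zero
  refine pval_inj (p := p) ?_
  rw [← pval_norm hv hp0]
  have h2 := PadicAlgCl.norm_extends p (p : ℚ_[p])
  rw [map_natCast] at h2
  rw [h2, Padic.norm_p, Rat.cast_one, Real.rpow_neg_one]

end H45K
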