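import Pool.Agent.Lib.H45K.K11
import Pool.Agent.Lib.H45K.K7

/-! # K12a: the fields Q_p(ω), ω a root of unity of order prime to p, are unramified -/

set_option autoImplicit false
set_option linter.unusedSectionVars false

namespace H45K
open Pool.Agent.H76Q IntermediateField Polynomial

variable {p : ℕ} [hp : Fact p.Prime] {v : AlgebraicClosure ℚ_[p] → ℚ}

theorem pval_V (hv : IsPVal p v) : IsV v := ⟨(pval_isVal hv).mul, (pval_isVal hv).add⟩

/-- Conjugate elements have the same valuation. -/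
theorem pval_minpoly (hv : IsPVal p v) {x y : AlgebraicClosure ℚ_[p]} (hx : x ≠ 0) (hy : y ≠ 0) (h : minpoly ℚ_[p] x = minpoly ℚ_[p] y) :
    v x = v y := by
  refine pval_inj (p := p) ?_
  rw [← hv x hx, ← hv y hy, spectralNorm, spectralNorm, h]

theorem pval_aut (hv : IsPVal p v) (δ : AlgebraicClosure ℚ_[p] ≃ₐ[ℚ_[p]] AlgebraicClosure ℚ_[p]) {x : AlgebraicClosure ℚ_[p]} (hx : x ≠ 0) :
    v (δ x) = v x :=
  pval_minpoly hv ((_root_.map_ne_zero δ).2 hx) hx (minpoly.algEquiv_eq δ x)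

/-- Elements of `ℚ_p` have integral valuation. -/
theorem pval_base (hv : IsPVal p v) {c : ℚ_[p]} (hc : c ≠ 0) : v (algebraMap ℚ_[p] _ c) = (c.valuation : ℚ) := by
  have hc' : algebraMap ℚ_[p] (AlgebraicClosure ℚ_[p]) c ≠ 0 := (_root_.map_ne_zero _).2 hc
  refine pval_inj (p := p) ?_
  rw [← pval_norm hv hc', PadicAlgCl.norm_extends, Padic.norm_eq_zpow_neg_valuation hc, ← Real.rpow_intCast]
  push_cast
  rfl

theorem unit_nat (hv : IsPVal p v) {n : ℕ} (hn : ¬ p ∣ n) : ¬ PV v (n : AlgebraicClosure ℚ_[p]) := by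
  have h := (pval_V hv).int_unit hp.out (pval_p hv) (n := (n : ℤ)) (by exact_mod_cast hn)
  rw [Int.cast_natCast] at h
  rintro (h1 | h1)
  · have : n = 0 := by exact_mod_cast h1
    exact hn (this ▸ dvd_zero p)
  · simp [h] at h1

/-- Different roots of unity of order prime to `p` are different modulo `p`. -/
theorem root_sub (hv : IsPVal p v) {n : ℕ} (hn : ¬ p ∣ n) {α β : AlgebraicClosure ℚ_[p]} (hα : α ^ n = 1) (hβ : β ^ n = 1) (hne : α ≠ β) :
    ¬ PV v (α - β) := by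
  intro h
  have hV := pval_V hv
  have hn0 : n ≠ 0 := by
    rintro rfl
    exact hn (dvd_zero p)
  have hβ0 : β ≠ 0 := by
    rintro rfl
    rw [zero_pow hn0] at hβ
    exact zero_ne_one hβ
  have hvβ : v β = 0 := by
    have := hV.pow hβ0 n
    rw [hβ, hV.one] at this
    have hn' : (n : ℚ) ≠ 0 := by exact_mod_cast hn0
    have h2 := mul_eq_zero.1 this.symm
    tauto
  have hβi : NN v β⁻¹ := Or.inr (by rw [hV.inv hβ0, hvβ, neg_zero])
  obtain ⟨ζ, hζ⟩ : ∃ ζ, ζ = α * β⁻¹ := ⟨_, rfl⟩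
  have hζn : ζ ^ n = 1 := by
    rw [hζ, mul_pow, inv_pow, hα, hβ, inv_one, mul_one]
  have hζ1 : ζ ≠ 1 := by
    intro h1
    apply hne
    rw [hζ] at h1
    field_simp at h1
    exact h1
  have hζP : PV v (ζ - 1) := by
    have : ζ - 1 = (α - β) * β⁻¹ := by
      rw [hζ, sub_mul, mul_inv_cancel₀ hβ0]
    rw [this]
    exact hV.pv_mul h hβi
  have hζnn : NN v ζ := by
    have : ζ = (ζ - 1) + 1 := by ring
    rw [this]
    exact hV.nn_add hζP.nn hV.nn_one
  have hpow : ∀ i : ℕ, NN v (ζ ^ i) := by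
    intro i
    induction i with
    | zero => rw [pow_zero]; exact hV.nn_one
    | succ i ih => rw [pow_succ]; exact hV.nn_mul ih hζnn
  have hpv : ∀ i : ℕ, PV v (ζ ^ i - 1) := by
    intro i
    rw [← mul_geom_sum]
    exact hV.pv_mul hζP (hV.nn_sum _ _ fun j _ => hpow j)
  have hsum : ∑ i ∈ Finset.range n, ζ ^ i = 0 := by
    have := mul_geom_sum ζ n
    rw [hζn, sub_self, mul_eq_zero] at this
    rcases this with h1 | h1
    · exact absurd (sub_eq_zero.1 h1) hζ1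
    · exact h1
  have h1 : PV v (∑ i ∈ Finset.range n, (ζ ^ i - 1)) := hV.pv_sum _ _ fun i _ => hpv i
  rw [Finset.sum_sub_distrib, hsum, Finset.sum_const, Finset.card_range, zero_sub, nsmul_eq_mul, mul_one] at h1
  have h2 := hV.pv_neg h1
  rw [neg_neg] at h2
  exact unit_nat hv hn h2

theorem not_pv_mul (hV : IsV v) {x y : AlgebraicClosure ℚ_[p]} (hx : NN v x) (hy : NN v y) (hx' : ¬ PV v x) (hy' : ¬ PV v y) : ¬ PV v (x * y) := by
  have hx0 : x ≠ 0 := fun h => hx' (Or.inl h)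
  have hy0 : y ≠ 0 := fun h => hy' (Or.inl h)
  rintro (h | h)
  · exact (mul_ne_zero hx0 hy0) h
  · rw [hV.mul x y hx0 hy0] at h
    have h1 : v x ≤ 0 := not_lt.1 fun h => hx' (Or.inr h)
    have h2 : v y ≤ 0 := not_lt.1 fun h => hy' (Or.inr h)
    linarith

theorem not_pv_prod (hV : IsV v) {ι : Type*} (s : Finset ι) (f : ι → AlgebraicClosure ℚ_[p]) (h : ∀ i ∈ s, NN v (f i)) (h' : ∀ i ∈ s, ¬ PV v (f i)) :
    ¬ PV v (∏ i ∈ s, f i) := by
  classical
  induction s using Finset.induction_on with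
  | empty => rw [Finset.prod_empty]; exact hV.not_pv_one
  | insert a s ha ih =>
    rw [Finset.prod_insert ha]
    refine not_pv_mul hV (h a (Finset.mem_insert_self a s)) (hV.nn_prod _ _ fun i hi => h i (Finset.mem_insert_of_mem hi))
      (h' a (Finset.mem_insert_self a s)) (ih (fun i hi => h i (Finset.mem_insert_of_mem hi)) fun i hi => h' i (Finset.mem_insert_of_mem hi))

/-- The field `ℚ_p(ω)` is unramified. -/
theorem unram (hv : IsPVal p v) {n : ℕ} (hn : ¬ p ∣ n) {ω : AlgebraicClosure ℚ_[p]} (hω : ω ^ n = 1) {x : AlgebraicClosure ℚ_[p]}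
    (hx : x ∈ ℚ_[p]⟮ω⟯) (hx0 : x ≠ 0) : ∃ m : ℤ, v x = m := by
  classical
  have hV := pval_V hv
  have hn0 : n ≠ 0 := by
    rintro rfl
    exact hn (dvd_zero p)
  have hint : IsIntegral ℚ_[p] ω := Algebra.IsIntegral.isIntegral ω
  let pb := IntermediateField.adjoin.powerBasis hint
  have : FiniteDimensional ℚ_[p] ℚ_[p]⟮ω⟯ := pb.finite
  have hcard : Fintype.card (Fin pb.dim) = Fintype.card (ℚ_[p]⟮ω⟯ →ₐ[ℚ_[p]] AlgebraicClosure ℚ_[p]) := by
    rw [AlgHom.card, Fintype.card_fin, pb.finrank]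
  let σ : Fin pb.dim ≃ (ℚ_[p]⟮ω⟯ →ₐ[ℚ_[p]] AlgebraicClosure ℚ_[p]) := Fintype.equivOfCardEq hcard
  obtain ⟨y, hy⟩ : ∃ y : ℚ_[p]⟮ω⟯, (y : AlgebraicClosure ℚ_[p]) = x := ⟨⟨x, hx⟩, rfl⟩
  have hy0 : y ≠ 0 := by
    rintro rfl
    exact hx0 hy.symm
  -- the coefficient of maximal norm
  let a : Fin pb.dim → ℚ_[p] := fun i => pb.basis.repr y i
  have hne : (Finset.univ.filter fun i => a i ≠ 0).Nonempty := by
    by_contra hcon
    rw [Finset.not_nonempty_iff_eq_empty, Finset.filter_eq_empty_iff] at hcon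
    apply hy0
    apply pb.basis.repr.injective
    ext i
    rw [map_zero]
    exact not_not.1 (hcon (Finset.mem_univ i))
  obtain ⟨i₀, hi₀, hmin⟩ := Finset.exists_min_image _ (fun i => (a i).valuation) hne
  rw [Finset.mem_filter] at hi₀
  have hc0 : a i₀ ≠ 0 := hi₀.2
  obtain ⟨b, hb⟩ : ∃ b : Fin pb.dim → ℚ_[p], ∀ i, b i = a i / a i₀ := ⟨_, fun i => rfl⟩
  have hb1 : b i₀ = 1 := by rw [hb, div_self hc0]
  have hbn : ∀ i, NN v (algebraMap ℚ_[p] (AlgebraicClosure ℚ_[p]) (b i)) := by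
    intro i
    by_cases h0 : a i = 0
    · left
      rw [hb, h0, zero_div, map_zero]
    · right
      have hb0 : b i ≠ 0 := by rw [hb]; exact div_ne_zero h0 hc0
      rw [pval_base hv hb0]
      have := hmin i (Finset.mem_filter.2 ⟨Finset.mem_univ i, h0⟩)
      have h3 : a i = b i * a i₀ := by rw [hb, div_mul_cancel₀ _ hc0]
      have h4 := Padic.valuation_mul hb0 hc0
      rw [← h3] at h4
      have h5 : 0 ≤ (b i).valuation := by linarith
      exact_mod_cast h5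
  -- z = y / c
  obtain ⟨z, hz⟩ : ∃ z : ℚ_[p]⟮ω⟯, z = (a i₀)⁻¹ • y := ⟨_, rfl⟩
  have hzs : ∀ τ : ℚ_[p]⟮ω⟯ →ₐ[ℚ_[p]] AlgebraicClosure ℚ_[p], τ z = ∑ i, algebraMap ℚ_[p] _ (b i) * (τ pb.gen) ^ (i : ℕ) := by
    intro τ
    have h1 : y = ∑ i, a i • pb.gen ^ (i : ℕ) := by
      conv_lhs => rw [← pb.basis.sum_repr y]
      exact Finset.sum_congr rfl fun i _ => by rw [pb.basis_eq_pow]
    have h2 : z = ∑ i, b i • pb.gen ^ (i : ℕ) := by
      rw [hz, h1, Finset.smul_sum]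
      refine Finset.sum_congr rfl fun i _ => ?_
      rw [smul_smul, hb, div_eq_inv_mul]
    rw [h2, map_sum]
    refine Finset.sum_congr rfl fun i _ => ?_
    rw [Algebra.smul_def, map_mul, AlgHom.commutes, map_pow]
  have hgen : ∀ τ : ℚ_[p]⟮ω⟯ →ₐ[ℚ_[p]] AlgebraicClosure ℚ_[p], (τ pb.gen) ^ n = 1 := by
    intro τ
    have h1 : pb.gen ^ n = 1 := by
      have h2 : (pb.gen : AlgebraicClosure ℚ_[p]) = ω := by
        change ((IntermediateField.adjoin.powerBasis hint).gen : AlgebraicClosure ℚ_[p]) = ω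
        rw [adjoin.powerBasis_gen, AdjoinSimple.coe_gen]
      apply Subtype.ext
      push_cast
      rw [h2, hω]
    rw [← map_pow, h1, map_one]
  have hgnn : ∀ τ : ℚ_[p]⟮ω⟯ →ₐ[ℚ_[p]] AlgebraicClosure ℚ_[p], NN v (τ pb.gen) := by
    intro τ
    refine hV.nn_integral ⟨X ^ n - 1, monic_X_pow_sub_C 1 hn0, ?_⟩
    rw [eval₂_sub, eval₂_X_pow, eval₂_one, hgen τ, sub_self]
  have hpow : ∀ (τ : ℚ_[p]⟮ω⟯ →ₐ[ℚ_[p]] AlgebraicClosure ℚ_[p]) (i : ℕ), NN v (τ pb.gen ^ i) := by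
    intro τ i
    induction i with
    | zero => rw [pow_zero]; exact hV.nn_one
    | succ i ih => rw [pow_succ]; exact hV.nn_mul ih (hgnn τ)
  have hznn : ∀ τ : ℚ_[p]⟮ω⟯ →ₐ[ℚ_[p]] AlgebraicClosure ℚ_[p], NN v (τ z) := by
    intro τ
    rw [hzs]
    exact hV.nn_sum _ _ fun i _ => hV.nn_mul (hbn i) (hpow τ i)
  have hz0 : z ≠ 0 := by
    rw [hz]
    exact smul_ne_zero (inv_ne_zero hc0) hy0
  -- z is a unit
  have hzv : ¬ PV v ((z : ℚ_[p]⟮ω⟯) : AlgebraicClosure ℚ_[p]) := by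
    intro hcon
    have hzP : ∀ τ : ℚ_[p]⟮ω⟯ →ₐ[ℚ_[p]] AlgebraicClosure ℚ_[p], PV v (τ z) := by
      intro τ
      right
      have h1 : v (τ z) = v ((z : ℚ_[p]⟮ω⟯) : AlgebraicClosure ℚ_[p]) := by
        refine pval_minpoly hv ((_root_.map_ne_zero τ).2 hz0) (fun h => hz0 (Subtype.ext h)) ?_
        rw [minpoly.algHom_eq τ τ.injective]
        exact (minpoly.algHom_eq (ℚ_[p]⟮ω⟯.val) Subtype.val_injective z).symm
      rw [h1]
      rcases hcon with h | h
      · exact absurd (Subtype.ext h) hz0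
      · exact h
    obtain ⟨V, hVdef⟩ : ∃ V : Matrix (Fin pb.dim) (Fin pb.dim) (AlgebraicClosure ℚ_[p]), V = Matrix.vandermonde fun j => σ j pb.gen := ⟨_, rfl⟩
    have hdet : ¬ PV v V.det := by
      rw [hVdef, Matrix.det_vandermonde]
      refine not_pv_prod hV _ _ (fun i _ => hV.nn_prod _ _ fun j _ => ?_) fun i _ => not_pv_prod hV _ _ (fun j _ => ?_) fun j hj => ?_
      · rw [sub_eq_add_neg]
        exact hV.nn_add (hgnn _) (hV.nn_neg (hgnn _))
      · rw [sub_eq_add_neg]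
        exact hV.nn_add (hgnn _) (hV.nn_neg (hgnn _))
      · refine root_sub hv hn (hgen _) (hgen _) fun h => ?_
        have h1 : σ j = σ i := pb.algHom_ext h
        have h2 := σ.injective h1
        rw [h2] at hj
        simp at hj
    have hmul : V.mulVec (fun i => algebraMap ℚ_[p] _ (b i)) = fun j => σ j z := by
      ext j
      rw [hzs, Matrix.mulVec, dotProduct]
      refine Finset.sum_congr rfl fun i _ => ?_
      rw [hVdef, Matrix.vandermonde_apply, mul_comm]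
    have hcr : V.det = (V.updateCol i₀ fun j => σ j z).det := by
      have h1 : V.cramer (fun j => σ j z) i₀ = V.det := by
        rw [← hmul, Matrix.cramer_eq_adjugate_mulVec, Matrix.mulVec_mulVec, Matrix.adjugate_mul, Matrix.smul_mulVec, Matrix.one_mulVec,
          Pi.smul_apply, hb1, map_one, smul_eq_mul, mul_one]
      rw [← h1, Matrix.cramer_apply]
    apply hdet
    rw [hcr]
    refine hV.pv_det _ i₀ (fun i j => ?_) fun i => ?_
    · rw [Matrix.updateCol_apply]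
      split_ifs with h
      · exact (hzP _).nn
      · rw [hVdef, Matrix.vandermonde_apply]
        exact hpow _ _
    · rw [Matrix.updateCol_self]
      exact hzP _
  have hzx : x = algebraMap ℚ_[p] _ (a i₀) * ((z : ℚ_[p]⟮ω⟯) : AlgebraicClosure ℚ_[p]) := by
    have h1 : y = a i₀ • z := by rw [hz, smul_smul, mul_inv_cancel₀ hc0, one_smul]
    rw [← hy, h1, ← Algebra.smul_def]
    rfl
  have hz1 : ((z : ℚ_[p]⟮ω⟯) : AlgebraicClosure ℚ_[p]) ≠ 0 := fun h => hz0 (Subtype.ext h)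
  have hz2 : v ((z : ℚ_[p]⟮ω⟯) : AlgebraicClosure ℚ_[p]) = 0 := by
    have h1 := hznn ℚ_[p]⟮ω⟯.val
    rcases h1 with h1 | h1
    · exact absurd h1 hz1
    · have h2 : ¬ 0 < v ((z : ℚ_[p]⟮ω⟯) : AlgebraicClosure ℚ_[p]) := fun h => hzv (Or.inr h)
      exact le_antisymm (not_lt.1 h2) h1
  refine ⟨(a i₀).valuation, ?_⟩
  rw [hzx, hV.mul _ _ ((_root_.map_ne_zero _).2 hc0) hz1, hz2, add_zero, pval_base hv hc0]

end H45K
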