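import Pool.Agent.Lib.H45K.K12a

/-! # K12b: an element of the closure of Q_p fixed by inertia has integral valuation -/

set_option autoImplicit false
set_option linter.unusedSectionVars false

namespace H45K
open Pool.Agent.H76Q IntermediateField Polynomial Filter Topology

variable {p : ℕ} [hp : Fact p.Prime] {v : AlgebraicClosure ℚ_[p] → ℚ}

theorem norm_lt_one_iff (hv : IsPVal p v) (x : AlgebraicClosure ℚ_[p]) : ‖(x : PadicAlgCl p)‖ < 1 ↔ PV v x := by
  have h1 : (1 : ℝ) < p := by exact_mod_cast hp.out.one_lt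
  by_cases hx : x = 0
  · subst hx
    simp [pv_zero]
  · rw [pval_norm hv hx, ← Real.rpow_zero (p : ℝ), Real.rpow_lt_rpow_left_iff h1]
    constructor
    · intro h
      right
      have h2 : (0 : ℝ) < v x := by linarith
      exact_mod_cast h2
    · rintro (h | h)
      · exact absurd h hx
      · have h2 : (0 : ℝ) < v x := by exact_mod_cast h
        linarith

theorem norm_le_one_iff (hv : IsPVal p v) (x : AlgebraicClosure ℚ_[p]) : ‖(x : PadicAlgCl p)‖ ≤ 1 ↔ NN v x := by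
  have h1 : (1 : ℝ) < p := by exact_mod_cast hp.out.one_lt
  by_cases hx : x = 0
  · subst hx
    simp [nn_zero]
  · rw [pval_norm hv hx, ← Real.rpow_zero (p : ℝ), Real.rpow_le_rpow_left_iff h1]
    constructor
    · intro h
      right
      have h2 : (0 : ℝ) ≤ v x := by linarith
      exact_mod_cast h2
    · rintro (h | h)
      · exact absurd h hx
      · have h2 : (0 : ℝ) ≤ v x := by exact_mod_cast h
        linarith

theorem nn_pow (hV : IsV v) {x : AlgebraicClosure ℚ_[p]} (hx : NN v x) (n : ℕ) : NN v (x ^ n) := by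
  induction n with
  | zero => rw [pow_zero]; exact hV.nn_one
  | succ n ih => rw [pow_succ]; exact hV.nn_mul ih hx

/-- A power of a unit is congruent to `1`. -/
theorem pow_near_one (hv : IsPVal p v) {y : AlgebraicClosure ℚ_[p]} (hy : NN v y) (hy' : ¬ PV v y) : ∃ m : ℕ, m ≠ 0 ∧ PV v (y ^ m - 1) := by
  have hV := pval_V hv
  let V : Submodule ℚ_[p] (PadicAlgCl p) := Subalgebra.toSubmodule (ℚ_[p]⟮(y : PadicAlgCl p)⟯.toSubalgebra)
  have hfd : FiniteDimensional ℚ_[p] ℚ_[p]⟮(y : PadicAlgCl p)⟯ := IntermediateField.adjoin.finiteDimensional (Algebra.IsIntegral.isIntegral y)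
  have hfd' : FiniteDimensional ℚ_[p] V := hfd
  have hprop : ProperSpace V := FiniteDimensional.proper ℚ_[p] V
  have hmem : ∀ k : ℕ, (y ^ k : PadicAlgCl p) ∈ V := fun k => pow_mem (mem_adjoin_simple_self ℚ_[p] (y : PadicAlgCl p)) k
  let u : ℕ → V := fun k => ⟨y ^ k, hmem k⟩
  have hu : ∀ k, u k ∈ Metric.closedBall (0 : V) 1 := by
    intro k
    rw [mem_closedBall_zero_iff]
    exact (norm_le_one_iff hv _).2 (nn_pow hV hy k)
  obtain ⟨a, -, φ, hφ, ha⟩ := (isCompact_closedBall (0 : V) 1).tendsto_subseq hu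
  rw [Metric.tendsto_atTop] at ha
  obtain ⟨N, hN⟩ := ha (1 / 2) (by norm_num)
  have h1 : dist (u (φ (N + 1))) (u (φ N)) < 1 := by
    have h2 := hN N le_rfl
    have h3 := hN (N + 1) (Nat.le_succ N)
    simp only [Function.comp] at h2 h3
    have h4 := dist_triangle_right (u (φ (N + 1))) (u (φ N)) a
    linarith
  have hlt : φ N < φ (N + 1) := hφ (Nat.lt_succ_self N)
  have h2 : ‖(y ^ φ (N + 1) - y ^ φ N : PadicAlgCl p)‖ < 1 := by
    rw [dist_eq_norm] at h1
    exact h1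
  have h3 : PV v (y ^ φ (N + 1) - y ^ φ N) := (norm_lt_one_iff hv _).1 h2
  refine ⟨φ (N + 1) - φ N, by omega, ?_⟩
  by_contra hcon
  have h4 : y ^ φ (N + 1) - y ^ φ N = y ^ φ N * (y ^ (φ (N + 1) - φ N) - 1) := by
    rw [mul_sub, ← pow_add, mul_one]
    congr 2
    omega
  rw [h4] at h3
  refine not_pv_mul hV (nn_pow hV hy _) ?_ ?_ hcon h3
  · rw [sub_eq_add_neg]
    exact hV.nn_add (nn_pow hV hy _) (hV.nn_neg hV.nn_one)
  · have hy0 : y ≠ 0 := fun h => hy' (Or.inl h)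
    rintro (h5 | h5)
    · exact pow_ne_zero _ hy0 h5
    · rw [hV.pow hy0] at h5
      have h6 : v y ≤ 0 := not_lt.1 fun h => hy' (Or.inr h)
      have h7 : ((φ N : ℕ) : ℚ) * v y ≤ 0 := mul_nonpos_of_nonneg_of_nonpos (by positivity) h6
      linarith

theorem p_root (hv : IsPVal p v) {z : AlgebraicClosure ℚ_[p]} (hz : NN v z) (h : PV v (z ^ p - 1)) : PV v (z - 1) := by
  have hV := pval_V hv
  have hz1 : NN v (z - 1) := by
    rw [sub_eq_add_neg]
    exact hV.nn_add hz (hV.nn_neg hV.nn_one)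
  obtain ⟨r, hr⟩ := exists_add_pow_prime_eq hp.out (X : ℤ[X]) 1
  have h1 := congrArg (Polynomial.aeval (z - 1)) hr
  simp only [map_add, map_pow, map_mul, aeval_X, map_one, one_pow, mul_one, sub_add_cancel, map_natCast] at h1
  have hrn : NN v (aeval (z - 1) r) := by
    rw [aeval_eq_sum_range]
    refine hV.nn_sum _ _ fun i _ => ?_
    rw [zsmul_eq_mul]
    exact hV.nn_mul (hV.nn_int _) (nn_pow hV hz1 _)
  have hpp : PV v (p : AlgebraicClosure ℚ_[p]) := Or.inr (by rw [pval_p hv]; norm_num)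
  have h2 : (z - 1) ^ p = (z ^ p - 1) + -((p : AlgebraicClosure ℚ_[p]) * ((z - 1) * aeval (z - 1) r)) := by
    rw [h1]; ring
  have h3 : PV v ((z - 1) ^ p) := by
    rw [h2]
    exact hV.pv_add h (hV.pv_neg (hV.pv_mul hpp (hV.nn_mul hz1 hrn)))
  by_cases h0 : z - 1 = 0
  · exact Or.inl h0
  · rcases h3 with h3 | h3
    · exact absurd h3 (pow_ne_zero _ h0)
    · right
      rw [hV.pow h0] at h3
      have hp0 : (0 : ℚ) < p := by exact_mod_cast hp.out.pos
      exact (mul_pos_iff_of_pos_left hp0).1 h3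

theorem p_root_pow (hv : IsPVal p v) {z : AlgebraicClosure ℚ_[p]} (hz : NN v z) (a : ℕ) (h : PV v (z ^ p ^ a - 1)) : PV v (z - 1) := by
  induction a with
  | zero => rwa [pow_zero, pow_one] at h
  | succ a ih =>
    apply ih
    apply p_root hv (nn_pow (pval_V hv) hz _)
    rwa [← pow_mul, ← pow_succ]

/-- Every unit is congruent to a root of unity of order prime to `p`. -/
theorem teich (hv : IsPVal p v) {y : AlgebraicClosure ℚ_[p]} (hy : NN v y) (hy' : ¬ PV v y) :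
    ∃ m : ℕ, ¬ p ∣ m ∧ ∃ ζ : AlgebraicClosure ℚ_[p], ζ ^ m = 1 ∧ PV v (y - ζ) := by
  have hV := pval_V hv
  obtain ⟨m, hm0, hm⟩ := pow_near_one hv hy hy'
  obtain ⟨a, m', hpm, rfl⟩ := Nat.exists_eq_pow_mul_and_not_dvd hm0 p hp.out.ne_one
  have hm'0 : m' ≠ 0 := fun h => hpm (h ▸ dvd_zero p)
  have h1 : PV v (y ^ m' - 1) := by
    refine p_root_pow hv (nn_pow hV hy _) a ?_
    rwa [← pow_mul, mul_comm m']
  refine ⟨m', hpm, ?_⟩
  have : NeZero ((m' : ℕ) : AlgebraicClosure ℚ_[p]) := ⟨by exact_mod_cast hm'0⟩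
  have : NeZero m' := ⟨hm'0⟩
  obtain ⟨ω, hω⟩ := HasEnoughRootsOfUnity.exists_primitiveRoot (AlgebraicClosure ℚ_[p]) m'
  have h2 := congrArg (Polynomial.eval y) (X_pow_sub_one_eq_prod (Nat.pos_of_ne_zero hm'0) hω)
  rw [eval_sub, eval_pow, eval_X, eval_one, eval_prod] at h2
  simp only [eval_sub, eval_X, eval_C] at h2
  rw [h2] at h1
  by_contra hcon
  push Not at hcon
  refine not_pv_prod hV _ _ (fun ζ hζ => ?_) (fun ζ hζ => ?_) h1
  · rw [mem_nthRootsFinset (Nat.pos_of_ne_zero hm'0)] at hζ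
    rw [sub_eq_add_neg]
    refine hV.nn_add hy (hV.nn_neg (hV.nn_integral ⟨X ^ m' - 1, monic_X_pow_sub_C 1 hm'0, ?_⟩))
    rw [eval₂_sub, eval₂_X_pow, eval₂_one, hζ, sub_self]
  · rw [mem_nthRootsFinset (Nat.pos_of_ne_zero hm'0)] at hζ
    exact hcon ζ hζ

variable (p) in
/-- The field generated by the roots of unity of order prime to `p`. -/
noncomputable def Kur : IntermediateField ℚ_[p] (AlgebraicClosure ℚ_[p]) :=
  IntermediateField.adjoin ℚ_[p] {ζ | ∃ n : ℕ, ¬ p ∣ n ∧ ζ ^ n = 1}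

theorem mem_Kur {x : AlgebraicClosure ℚ_[p]} (hx : x ∈ Kur p) : ∃ n : ℕ, ¬ p ∣ n ∧ ∃ ω : AlgebraicClosure ℚ_[p], ω ^ n = 1 ∧ x ∈ ℚ_[p]⟮ω⟯ := by
  classical
  obtain ⟨T, hT, hx⟩ := IntermediateField.exists_finset_of_mem_adjoin hx
  have h1 : ∃ n : ℕ, ¬ p ∣ n ∧ ∀ t ∈ T, t ^ n = 1 := by
    clear hx
    induction T using Finset.induction_on with
    | empty => exact ⟨1, hp.out.one_lt.ne' ∘ Nat.dvd_one.1, by simp⟩
    | insert a T ha ih =>
      rw [Finset.coe_insert, Set.insert_subset_iff] at hT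
      obtain ⟨n, hn, h⟩ := ih hT.2
      obtain ⟨m, hm, ham⟩ := hT.1
      refine ⟨m * n, ?_, ?_⟩
      · rw [hp.out.dvd_mul]
        tauto
      · intro t ht
        rcases Finset.mem_insert.1 ht with rfl | ht
        · rw [pow_mul, ham, one_pow]
        · rw [mul_comm, pow_mul, h t ht, one_pow]
  obtain ⟨n, hn, h⟩ := h1
  have hn0 : n ≠ 0 := fun h => hn (h ▸ dvd_zero p)
  have : NeZero ((n : ℕ) : AlgebraicClosure ℚ_[p]) := ⟨by exact_mod_cast hn0⟩
  have : NeZero n := ⟨hn0⟩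
  obtain ⟨ω, hω⟩ := HasEnoughRootsOfUnity.exists_primitiveRoot (AlgebraicClosure ℚ_[p]) n
  refine ⟨n, hn, ω, hω.pow_eq_one, ?_⟩
  have h2 : IntermediateField.adjoin ℚ_[p] (T : Set (AlgebraicClosure ℚ_[p])) ≤ ℚ_[p]⟮ω⟯ := by
    rw [IntermediateField.adjoin_le_iff]
    intro t ht
    obtain ⟨i, -, hi⟩ := hω.eq_pow_of_pow_eq_one (h t ht)
    rw [← hi]
    exact pow_mem (mem_adjoin_simple_self ℚ_[p] ω) i
  exact h2 hx

/-- Automorphisms which fix the roots of unity of order prime to `p` are in the inertia group. -/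
theorem mem_inertia (hv : IsPVal p v) (δ : AlgebraicClosure ℚ_[p] ≃ₐ[ℚ_[p]] AlgebraicClosure ℚ_[p])
    (h : ∀ (n : ℕ) (ζ : AlgebraicClosure ℚ_[p]), ¬ p ∣ n → ζ ^ n = 1 → δ ζ = ζ) : δ.toRingEquiv ∈ inertia p v := by
  have hV := pval_V hv
  have hpv : ∀ w, PV v w → PV v (δ w - w) := by
    intro w hw
    rw [sub_eq_add_neg]
    refine hV.pv_add ?_ (hV.pv_neg hw)
    rcases hw with hw | hw
    · left
      rw [hw, map_zero]
    · by_cases h0 : w = 0
      · left
        rw [h0, map_zero]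
      · right
        rwa [pval_aut hv δ h0]
  refine ⟨fun c => δ.commutes c, fun x hx0 hx => ?_⟩
  have h1 : PV v (δ x - x) := by
    by_cases hx' : PV v x
    · exact hpv x hx'
    · obtain ⟨m, hm, ζ, hζ, hxζ⟩ := teich hv (Or.inr hx) hx'
      have h2 := hpv _ hxζ
      rw [map_sub, h m ζ hm hζ] at h2
      rwa [sub_sub_sub_cancel_right] at h2
  rcases h1 with h1 | h1
  · left
    exact sub_eq_zero.1 h1
  · right
    exact h1

/-- K12. An element of the closure of `ℚ_p` fixed by inertia has integral valuation. -/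
theorem pval_dval (hv : IsPVal p v) (x : AlgebraicClosure ℚ_[p]) (hx : x ≠ 0) (h : ∀ δ ∈ inertia p v, δ x = x) : ∃ n : ℤ, v x = n := by
  have h1 : x ∈ Kur p := by
    rw [← InfiniteGalois.fixedField_fixingSubgroup (Kur p)]
    rw [IntermediateField.mem_fixedField_iff]
    intro δ hδ
    refine h δ.toRingEquiv (mem_inertia hv δ fun n ζ hn hζ => ?_)
    exact (IntermediateField.mem_fixingSubgroup_iff _ δ).1 hδ ζ (IntermediateField.subset_adjoin _ _ ⟨n, hn, hζ⟩)
  obtain ⟨n, hn, ω, hω, hx2⟩ := mem_Kur h1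
  exact unram hv hn hω hx2 hx

end H45K
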