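import Mathlib

/-! # K13: an integer congruent to 1 modulo 4 v is a square in F_v (Newton iteration) -/

set_option autoImplicit false
set_option linter.unusedSectionVars false

namespace H45K
open NumberField IsDedekindDomain WithZero

variable {F : Type} [Field F] [NumberField F]

theorem sq_of_cong (v : HeightOneSpectrum (𝓞 F)) (π : 𝓞 F) (h : π - 1 ∈ Ideal.span {4} * v.asIdeal) :
    ∀ N : ℕ, ∃ y : F, v.valuation F ((π : F) - y ^ 2) < exp (-(N : ℤ)) := by
  set val := v.valuation F with hval
  have h2F : (2 : F) ≠ 0 := two_ne_zero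
  have hv2 : val 2 ≤ 1 := by
    have := v.valuation_le_one (K := F) (2 : 𝓞 F)
    have h0 : ((2 : 𝓞 F) : F) = 2 := map_ofNat (algebraMap (𝓞 F) F) 2
    exact h0 ▸ this
  have hv4 : val 4 = val 2 * val 2 := by
    rw [← map_mul]; norm_num
  have hv20 : val 2 ≠ 0 := (Valuation.ne_zero_iff _).2 h2F
  have hv41 : val 4 ≤ 1 := by
    rw [hv4]; exact mul_le_one' hv2 hv2
  have key : ∀ n : ℕ, ∃ y : F, val y = 1 ∧ val (y ^ 2 - π) ≤ val 4 * exp (-((n : ℤ) + 1)) := by
    intro n
    induction n with
    | zero =>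
      refine ⟨1, map_one _, ?_⟩
      rw [Ideal.mem_span_singleton_mul] at h
      obtain ⟨z, hz, hz2⟩ := h
      have h3 : ((1 : F) ^ 2 - π) = -(4 * (z : F)) := by
        have := congrArg (fun t : 𝓞 F => (t : F)) hz2
        simp only [map_mul, map_sub, map_one] at this
        rw [show (algebraMap (𝓞 F) F) 4 = 4 from map_ofNat _ 4] at this
        rw [this]; ring
      rw [h3, Valuation.map_neg, map_mul]
      refine mul_le_mul_right (α := ℤᵐ⁰) ?_ _
      have h5 : val (z : F) < 1 := (v.valuation_lt_one_iff_mem z).2 hz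
      have h6 : val (z : F) ≤ exp (-1 : ℤ) := by
        have := (v.valuation_lt_one_iff_mem (K := F) z)
        by_contra hc
        push Not at hc
        have hne : val (z : F) ≠ 0 := fun h0 => by rw [h0] at hc; exact absurd hc (by simp)
        obtain ⟨k, hk⟩ : ∃ k : ℤ, val (z : F) = exp k := ⟨log (val (z : F)), (exp_log hne).symm⟩
        rw [hk] at hc h5
        rw [exp_lt_exp] at hc
        rw [← exp_zero, exp_lt_exp] at h5
        omega
      simpa using h6
    | succ n ih =>
      obtain ⟨y, hy, hy2⟩ := ih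
      have hy0 : y ≠ 0 := by
        rintro rfl
        rw [map_zero] at hy
        exact zero_ne_one hy
      set e := y ^ 2 - (π : F) with he
      have he2 : val (e / (2 * y)) ≤ val 2 * exp (-((n : ℤ) + 1)) := by
        rw [map_div₀, map_mul, hy, mul_one]
        rw [div_le_iff₀ (zero_lt_iff.2 hv20)]
        calc val e ≤ val 4 * exp (-((n : ℤ) + 1)) := hy2
          _ = val 2 * exp (-((n : ℤ) + 1)) * val 2 := by rw [hv4, mul_assoc, mul_assoc, mul_comm (val 2) (exp _)]
      have he3 : val (e / (2 * y)) < 1 := by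
        refine lt_of_le_of_lt he2 ?_
        calc val 2 * exp (-((n : ℤ) + 1)) ≤ 1 * exp (-((n : ℤ) + 1)) := mul_le_mul_left (α := ℤᵐ⁰) hv2 _
          _ < 1 := by
            rw [one_mul, ← exp_zero, exp_lt_exp]
            omega
      refine ⟨y - e / (2 * y), ?_, ?_⟩
      · rw [sub_eq_add_neg, Valuation.map_add_eq_of_lt_left, hy]
        rw [Valuation.map_neg, hy]
        exact he3
      · have h3 : (y - e / (2 * y)) ^ 2 - π = (e / (2 * y)) ^ 2 := by
          have : (y - e / (2 * y)) ^ 2 = y ^ 2 - e + (e / (2 * y)) ^ 2 := by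
            field_simp
            ring
          rw [this, he]; ring
        rw [h3, map_pow]
        calc val (e / (2 * y)) ^ 2 ≤ (val 2 * exp (-((n : ℤ) + 1))) ^ 2 := pow_le_pow_left' he2 2
          _ = val 4 * exp (-((n : ℤ) + 1) + -((n : ℤ) + 1)) := by
            rw [hv4, exp_add, mul_pow, pow_two, pow_two]
          _ ≤ val 4 * exp (-(((n + 1 : ℕ) : ℤ) + 1)) := by
            refine mul_le_mul_right (α := ℤᵐ⁰) ?_ _
            rw [exp_le_exp]
            push_cast
            omega
  intro N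
  obtain ⟨y, -, hy⟩ := key N
  refine ⟨y, ?_⟩
  rw [← Valuation.map_neg, neg_sub]
  refine lt_of_le_of_lt hy ?_
  calc val 4 * exp (-((N : ℤ) + 1)) ≤ 1 * exp (-((N : ℤ) + 1)) := mul_le_mul_left (α := ℤᵐ⁰) hv41 _
    _ < exp (-(N : ℤ)) := by
      rw [one_mul, exp_lt_exp]
      omega

end H45K
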