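import Pool.Agent.Lib.H45K.K6
import Pool.Agent.Lib.H76Q.X12b

/-! # K14: preparations for the second version of the final theorem -/

set_option autoImplicit false
set_option linter.unusedSectionVars false

namespace H45K
open Pool.Agent.H76Q

theorem exists_lift {F Ω Ω' : Type*} [Field F] [Field Ω] [Field Ω'] [Algebra F Ω] [Algebra F Ω'] [Algebra.IsAlgebraic F Ω] [IsAlgClosed Ω'] :
    ∃ g : Ω →+* Ω', ∀ x, g (algebraMap F Ω x) = algebraMap F Ω' x :=
  ⟨(IsAlgClosed.lift : Ω →ₐ[F] Ω').toRingHom, fun x => (IsAlgClosed.lift : Ω →ₐ[F] Ω').commutes x⟩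

/-- Two embeddings of a field in an algebraic closure of `ℚ` are conjugate. -/
theorem exists_aut {F Ω : Type*} [Field F] [Field Ω] [CharZero Ω] [IsAlgClosed Ω] [Algebra.IsAlgebraic ℚ Ω] (τ τ' : F →+* Ω) :
    ∃ s : Ω ≃+* Ω, ∀ x, s (τ x) = τ' x := by
  have halg : ∀ τ : F →+* Ω, @Algebra.IsAlgebraic F Ω _ _ τ.toAlgebra := by
    intro τ
    letI := τ.toAlgebra
    have : CharZero F := τ.charZero_iff τ.injective |>.2 inferInstance
    have : IsScalarTower ℚ F Ω := inferInstance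
    exact Algebra.IsAlgebraic.tower_top (K := ℚ) F
  obtain ⟨g, hg⟩ := @exists_lift F Ω Ω _ _ _ τ.toAlgebra τ'.toAlgebra (halg τ) _
  have hb : Function.Bijective g := by
    have := Algebra.IsAlgebraic.algHom_bijective g.toRatAlgHom
    exact this
  exact ⟨RingEquiv.ofBijective g hb, hg⟩

theorem dec_of {Ω : Type} [Field Ω] [CharZero Ω] [IsAlgClosed Ω] [Algebra.IsAlgebraic ℚ Ω] (p : ℕ)
    (s : Ω ≃+* Ω) (T : Finset Ω) : ∃ u : ℕ, Odd u ∧ ∃ (l : ℕ) (_ : Fact l.Prime), l ∉ ({2, p} : Set ℕ) ∧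
      ∃ (i : Ω →+* AlgebraicClosure ℚ_[l]) (t : AlgebraicClosure ℚ_[l] ≃ₐ[ℚ_[l]] AlgebraicClosure ℚ_[l]),
        ∀ x ∈ T, t (i x) = i ((s ^ u) x) := by
  refine exists_dec {2, p} ?_ (fun Γ hT a _ ha h => ?_) s T
  · obtain ⟨l, hl, hlp⟩ := Nat.exists_infinite_primes (p + 3)
    exact ⟨l, hlp, by simp only [Set.mem_insert_iff, Set.mem_singleton_iff]; omega⟩
  · obtain ⟨R', hR', c, hc, hac⟩ := cheb (∅ : Finset Ω) {2, p} (by simp) Γ hT (by simp) a ha
      (fun l _ hl i hi _ => h l hl i hi)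
    rw [Finset.subset_empty] at hR'
    rw [hR', Finset.prod_empty, one_mul] at hac
    exact ⟨c, hc, hac⟩

end H45K
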