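import Pool.Agent.Lib.H45K.QuadRec
import Pool.Agent.Lib.CFT.N01
import Pool.Agent.Lib.CFT.N02
import Pool.Agent.Lib.CFT.B03

/-! # H45K, K2: the places of a number field above `l` are induced by its embeddings into the algebraic closure of `ℚ_l`, and an element all of
whose images in the algebraic closure of `ℚ_l` are squares of elements of `ℚ_l` is a local square at these places -/

set_option autoImplicit false
set_option linter.unusedSectionVars false

open NumberField IsDedekindDomain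

namespace H45K

open CFT ST32

/-- Algebraic integers have norm at most one. -/
theorem norm_int {L : Type*} [NormedField L] [IsUltrametricDist L] {x : L} (hx : IsIntegral ℤ x) : ‖x‖ ≤ 1 := by
  obtain ⟨f, hf, hfx⟩ := hx
  by_contra hcon
  rw [not_le] at hcon
  rw [Polynomial.eval₂_eq_sum_range, Finset.sum_range_succ, hf.coeff_natDegree, map_one, one_mul] at hfx
  have h0 : f.natDegree ≠ 0 := by
    intro h
    rw [h, Finset.sum_range_zero, zero_add, pow_zero] at hfx
    exact one_ne_zero hfx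
  have h1 : x ^ f.natDegree = -∑ i ∈ Finset.range f.natDegree, (algebraMap ℤ L (f.coeff i)) * x ^ i := by
    rw [eq_neg_iff_add_eq_zero, add_comm]
    exact hfx
  have h2 : ‖∑ i ∈ Finset.range f.natDegree, (algebraMap ℤ L (f.coeff i)) * x ^ i‖ ≤ ‖x‖ ^ (f.natDegree - 1) := by
    refine IsUltrametricDist.norm_sum_le_of_forall_le_of_nonneg (by positivity) fun i hi => ?_
    rw [norm_mul, norm_pow]
    have h3 : ‖algebraMap ℤ L (f.coeff i)‖ ≤ 1 := by
      rw [eq_intCast]
      exact IsUltrametricDist.norm_intCast_le_one L _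
    have h4 : i ≤ f.natDegree - 1 := by
      have := Finset.mem_range.1 hi
      omega
    calc _ ≤ 1 * ‖x‖ ^ i := mul_le_mul_of_nonneg_right h3 (by positivity)
      _ ≤ ‖x‖ ^ (f.natDegree - 1) := by
          rw [one_mul]
          exact pow_le_pow_right₀ hcon.le h4
  have h5 : ‖x‖ ^ f.natDegree ≤ ‖x‖ ^ (f.natDegree - 1) := by
    rw [← norm_pow, h1, norm_neg]
    exact h2
  have h6 : ‖x‖ ^ (f.natDegree - 1) < ‖x‖ ^ f.natDegree := pow_lt_pow_right₀ hcon (by omega)
  exact absurd h5 (not_le.2 h6)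

section

variable {Om : Type} [Field Om] {L : Type} [NormedField L] [IsUltrametricDist L] (i : Om →+* L)

/-- The prime ideal of the algebraic integers induced by the embedding `i`. -/
def prm : Ideal (𝓞 Om) where
  carrier := {x | ‖i (algebraMap (𝓞 Om) Om x)‖ < 1}
  zero_mem' := by
    rw [Set.mem_ofPred_eq, map_zero, map_zero, norm_zero]
    exact one_pos
  add_mem' := by
    intro a b ha hb
    rw [Set.mem_ofPred_eq, map_add, map_add]
    exact (IsUltrametricDist.norm_add_le_max _ _).trans_lt (max_lt ha hb)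
  smul_mem' := by
    intro c x hx
    rw [Set.mem_ofPred_eq, smul_eq_mul, map_mul, map_mul, norm_mul]
    have h1 : ‖i (algebraMap (𝓞 Om) Om c)‖ ≤ 1 := norm_int ((RingOfIntegers.isIntegral_coe c).map i.toIntAlgHom)
    exact (mul_le_mul_of_nonneg_right h1 (norm_nonneg _)).trans_lt (by rw [one_mul]; exact hx)

theorem mem_prm (x : 𝓞 Om) : x ∈ prm i ↔ ‖i (algebraMap (𝓞 Om) Om x)‖ < 1 := Iff.rfl

theorem prm_prime : (prm i).IsPrime := by
  rw [Ideal.isPrime_iff]
  constructor
  · rw [Ne, Ideal.eq_top_iff_one, mem_prm, map_one, map_one, norm_one]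
    exact lt_irrefl _
  · intro a b hab
    rw [mem_prm, map_mul, map_mul, norm_mul] at hab
    rw [mem_prm, mem_prm]
    by_contra hcon
    rw [not_or, not_lt, not_lt] at hcon
    exact absurd hab (not_lt.2 (one_le_mul_of_one_le_of_one_le hcon.1 hcon.2))

end

section

/-- Two prime ideals of the ring of all algebraic integers which contain the same prime number are above the same prime of `ℚ`. -/
theorem comap_eq {Om : Type} [Field Om] [CharZero Om] {l : ℕ} (hl : l.Prime) (P Q : Ideal (𝓞 Om)) (hP : P.IsPrime) (hQ : Q.IsPrime)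
    (h1 : (l : 𝓞 Om) ∈ P) (h2 : (l : 𝓞 Om) ∈ Q) : P.comap (algebraMap (𝓞 ℚ) (𝓞 Om)) = Q.comap (algebraMap (𝓞 ℚ) (𝓞 Om)) := by
  have key : ∀ P : Ideal (𝓞 Om), P.IsPrime → (l : 𝓞 Om) ∈ P → ∀ n : ℤ, (n : 𝓞 Om) ∈ P ↔ (l : ℤ) ∣ n := by
    intro P hP hl' n
    constructor
    · intro hn
      by_contra hcon
      have hcop : IsCoprime n (l : ℤ) := by
        rw [isCoprime_comm]
        exact (Prime.coprime_iff_not_dvd (Nat.prime_iff_prime_int.1 hl)).2 hcon
      obtain ⟨a, b, hab⟩ := hcop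
      apply hP.ne_top
      rw [Ideal.eq_top_iff_one]
      have e : (1 : 𝓞 Om) = (a : 𝓞 Om) * (n : 𝓞 Om) + (b : 𝓞 Om) * (l : 𝓞 Om) := by
        have := congrArg (fun z : ℤ => (z : 𝓞 Om)) hab
        push_cast at this
        exact this.symm
      rw [e]
      exact P.add_mem (P.mul_mem_left _ hn) (P.mul_mem_left _ hl')
    · rintro ⟨m, rfl⟩
      push_cast
      exact P.mul_mem_right _ hl'
  have hQi : ∀ x : 𝓞 ℚ, ∃ n : ℤ, x = n := fun x => by
    obtain ⟨n, hn⟩ := (Rat.ringOfIntegersEquiv.symm).surjective x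
    exact ⟨n, by rw [← hn]; simp⟩
  ext x
  obtain ⟨n, rfl⟩ := hQi x
  rw [Ideal.mem_comap, Ideal.mem_comap, map_intCast, key P hP h1, key Q hQ h2]

variable {F : Type} [Field F] [NumberField F] {Om : Type} [Field Om] [Algebra F Om] [IsAlgClosure F Om]
variable {L : Type} [NormedField L] [IsUltrametricDist L]

/-- Every place above `l` is induced by an embedding. -/
theorem exists_emb {l : ℕ} (hl : l.Prime) (i : Om →+* L) (hil : ‖(l : L)‖ < 1) (v : Pr F) (hv : (l : 𝓞 F) ∈ v.asIdeal) :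
    ∃ τ : F →+* Om, ∀ x : 𝓞 F, x ∈ v.asIdeal ↔ ‖i (τ x)‖ < 1 := by
  have hac : IsAlgClosed Om := IsAlgClosure.isAlgClosed F
  have halg : Algebra.IsAlgebraic F Om := IsAlgClosure.isAlgebraic
  have h0 : CharZero Om := charZero_of_injective_algebraMap (algebraMap F Om).injective
  have halgQ : Algebra.IsAlgebraic ℚ Om := Algebra.IsAlgebraic.trans ℚ F Om
  have hcl : IsAlgClosure ℚ Om := ⟨hac, halgQ⟩
  obtain ⟨P, hP⟩ := exists_above (Om := Om) v
  have hlP : (l : 𝓞 Om) ∈ P := by
    have h1 := hv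
    rw [← hP.2, Ideal.mem_comap, map_natCast] at h1
    exact h1
  have hlQ : (l : 𝓞 Om) ∈ prm i := by
    rw [mem_prm, map_natCast, map_natCast]
    exact hil
  obtain ⟨g, hg⟩ := exists_smul_eq (K := ℚ) (Om := Om) P (prm i) hP.1 (prm_prime i) (comap_eq hl P (prm i) hP.1 (prm_prime i) hlP hlQ)
  refine ⟨(g : Om →+* Om).comp (algebraMap F Om), fun x => ?_⟩
  rw [← hP.2, Ideal.mem_comap, hg, mem_prm]
  rfl

theorem val_le_of_norm {v : Pr F} {σ : F →+* L} (hσ : ∀ x : 𝓞 F, x ∈ v.asIdeal ↔ ‖σ x‖ < 1) {x : F} (hx : ‖σ x‖ ≤ 1) :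
    v.valuation F x ≤ 1 := by
  by_contra hcon
  rw [not_le] at hcon
  have hx0 : x ≠ 0 := by
    rintro rfl
    rw [map_zero] at hcon
    exact absurd hcon (not_lt.2 zero_le_one)
  have h1 : 0 < od v x⁻¹ := by
    rw [val_eq v hx0, ← WithZero.exp_zero, WithZero.exp_lt_exp] at hcon
    rw [od_inv]
    exact hcon
  obtain ⟨a, b, hb0, hab, hb⟩ := frac_prime {v} (x := x⁻¹) fun w hw => by
    rw [Finset.mem_singleton.1 hw]
    exact h1.le
  have hbv := hb v (Finset.mem_singleton_self v)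
  have hb0' : (b : F) ≠ 0 := fun h => hb0 (RingOfIntegers.coe_eq_zero_iff.1 h)
  have hx0' : x⁻¹ ≠ 0 := inv_ne_zero hx0
  have ha0 : a ≠ 0 := by
    rintro rfl
    apply hx0'
    rw [hab]
    simp
  have h2 : od v (b : F) = 0 := by
    have h3 := od_nonneg v b
    have h4 := (od_pos_iff v hb0).not.2 hbv
    omega
  have h3 : (a : F) = x⁻¹ * (b : F) := by rw [hab, div_mul_cancel₀ _ hb0']
  have h4 : 0 < od v (a : F) := by
    rw [h3, od_mul v hx0' hb0', h2, add_zero]
    exact h1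
  have h5 := (od_pos_iff v ha0).1 h4
  rw [hσ] at h5
  have h6 : ¬ ‖σ b‖ < 1 := fun h => hbv ((hσ b).2 h)
  have h7 : ‖σ (b : F)‖ ≤ 1 := norm_int ((RingOfIntegers.isIntegral_coe b).map σ.toIntAlgHom)
  have h8 : ‖σ (b : F)‖ = 1 := le_antisymm h7 (not_lt.1 h6)
  rw [h3, map_mul, norm_mul, h8, mul_one, map_inv₀, norm_inv] at h5
  have h9 : 0 < ‖σ x‖ := by
    rw [norm_pos_iff]
    exact (map_ne_zero σ).2 hx0
  exact absurd (inv_lt_one₀ h9 |>.1 h5) (not_lt.2 hx)

end

end H45K
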