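import Pool.Agent.Lib.CHEB.Rat
import Pool.Agent.Lib.H60.UDef.SplitPrime
import Pool.Agent.Lib.H57O.F0

/-! # K4a: embeddings of a number field into the l-adic numbers from a Frobenius congruence -/

open NumberField IsDedekindDomain Polynomial CFT

namespace H45K

/-- There are arbitrarily large primes with a given Frobenius element. -/
theorem k4_frob (M : Type) [Field M] [NumberField M] [IsGalois ℚ M] (σ : M ≃ₐ[ℚ] M) (B : ℕ) :
    ∃ l : ℕ, l.Prime ∧ B < l ∧ ∃ W : Pr M, (l : 𝓞 M) ∈ W.asIdeal ∧ ∀ y : 𝓞 M, σ • y - y ^ l ∈ W.asIdeal := by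
  have h1 := chebotarev_infinite ℚ M σ
  have h2 : {v : Pr ℚ | Nm v ≤ B}.Finite := CFTC.nm_fin B
  obtain ⟨v, ⟨_, W, hW, hF⟩, hv⟩ := h1.exists_notMem_finset h2.toFinset
  rw [Set.Finite.mem_toFinset, Set.mem_ofPred_eq, not_le] at hv
  refine ⟨Nm v, CHEB.rat_Nm_prime v, hv, W, CHEB.mem_of_below hW, fun y => ?_⟩
  have h3 := hF y
  rwa [hW] at h3

/-- An element fixed by the Frobenius map modulo a prime is congruent to an integer. -/
theorem k4_int {M : Type} [Field M] [NumberField M] (W : Pr M) {l : ℕ} (hl : l.Prime) (h : (l : 𝓞 M) ∈ W.asIdeal)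
    (x : 𝓞 M) (hx : x - x ^ l ∈ W.asIdeal) : ∃ t : ℤ, x - (t : 𝓞 M) ∈ W.asIdeal := by
  have : Fact l.Prime := ⟨hl⟩
  have hmax : W.asIdeal.IsMaximal := W.isMaximal
  let _ : Field (𝓞 M ⧸ W.asIdeal) := Ideal.Quotient.field W.asIdeal
  have hc : CharP (𝓞 M ⧸ W.asIdeal) l := by
    refine (CharP.charP_iff_prime_eq_zero hl).2 ?_
    have := (Ideal.Quotient.eq_zero_iff_mem (I := W.asIdeal)).2 h
    rwa [map_natCast] at this
  have h1 : (Ideal.Quotient.mk W.asIdeal x) ^ l = Ideal.Quotient.mk W.asIdeal x := by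
    rw [← map_pow]
    exact ((Ideal.Quotient.eq).2 hx).symm
  have h2 := (Subfield.mem_bot_iff_pow_eq_self (𝓞 M ⧸ W.asIdeal) l).2 h1
  obtain ⟨t, ht⟩ := (mem_bot_iff_intCast l _).1 h2
  refine ⟨t, (Ideal.Quotient.eq).1 ?_⟩
  rw [map_intCast, ht]

/-- Integers in a prime above `l` are divisible by `l`. -/
theorem k4_dvd {M : Type} [Field M] [NumberField M] (W : Pr M) {l : ℕ} (hl : l.Prime) (h : (l : 𝓞 M) ∈ W.asIdeal)
    (n : ℤ) (hn : (n : 𝓞 M) ∈ W.asIdeal) : (l : ℤ) ∣ n := by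
  by_contra hc
  have h1 : IsCoprime (l : ℤ) n := (Nat.prime_iff_prime_int.1 hl).coprime_iff_not_dvd.2 hc
  obtain ⟨u, w, huw⟩ := h1
  apply W.isPrime.ne_top
  rw [Ideal.eq_top_iff_one]
  have h3 : (1 : 𝓞 M) = (u : 𝓞 M) * (l : 𝓞 M) + (w : 𝓞 M) * (n : 𝓞 M) := by
    have := congrArg (fun t : ℤ => (t : 𝓞 M)) huw
    push_cast at this
    exact this.symm
  rw [h3]
  exact W.asIdeal.add_mem (W.asIdeal.mul_mem_left _ h) (W.asIdeal.mul_mem_left _ hn)

/-- A nonzero integer multiple of an element is integral. -/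
theorem k4_mult {N : Type} [Field N] [NumberField N] (x : N) : ∃ (D : ℤ) (y : 𝓞 N), D ≠ 0 ∧ (y : N) = (D : N) * x := by
  obtain ⟨D, hD0, hD⟩ := IsAlgebraic.exists_integral_multiple ((IsFractionRing.isAlgebraic_iff ℤ ℚ N).2 (Algebra.IsAlgebraic.isAlgebraic x))
  refine ⟨D, ⟨D • x, hD⟩, hD0, ?_⟩
  show D • x = _
  rw [zsmul_eq_mul]

/-- An integral primitive element. -/
theorem k4_prim (N : Type) [Field N] [NumberField N] : ∃ θ : 𝓞 N, Algebra.adjoin ℚ {(θ : N)} = ⊤ := by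
  set pb := Field.powerBasisOfFiniteOfSeparable ℚ N
  obtain ⟨D, y, hD0, hy⟩ := k4_mult pb.gen
  refine ⟨y, ?_⟩
  rw [← top_le_iff, ← pb.adjoin_gen_eq_top]
  refine Algebra.adjoin_le ?_
  rw [Set.singleton_subset_iff]
  have h1 : pb.gen = (D : ℚ)⁻¹ • (y : N) := by
    rw [hy, Algebra.smul_def, map_inv₀, map_intCast, ← mul_assoc, inv_mul_cancel₀, one_mul]
    exact_mod_cast hD0
  rw [h1]
  exact Subalgebra.smul_mem _ (Algebra.subset_adjoin (Set.mem_singleton _)) _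

end H45K
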