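import Pool.Agent.Lib.H45K.K4a

/-! # K4b: the embedding lemma -/

open NumberField IsDedekindDomain Polynomial CFT

namespace H45K

theorem k4_cong {M : Type} [Field M] [NumberField M] (W : Pr M) {y : 𝓞 M} {t : ℤ} (h : y - (t : 𝓞 M) ∈ W.asIdeal)
    (P : ℤ[X]) : aeval y P - ((P.eval t : ℤ) : 𝓞 M) ∈ W.asIdeal := by
  have h1 := Polynomial.sub_dvd_eval_sub y (t : 𝓞 M) (P.map (algebraMap ℤ (𝓞 M)))
  rw [eval_map_algebraMap, eval_map_algebraMap] at h1
  have h2 : aeval (t : 𝓞 M) P = ((P.eval t : ℤ) : 𝓞 M) := by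
    have h3 := Polynomial.aeval_algebraMap_apply (𝓞 M) t P
    rw [eq_intCast, eq_intCast] at h3
    rw [h3]
    simp
  rw [h2] at h1
  obtain ⟨u, hu⟩ := h1
  rw [hu]
  exact W.asIdeal.mul_mem_right _ h

theorem k4_padic {l : ℕ} [Fact l.Prime] {z : ℤ_[l]} {t : ℤ} (h : ‖z - (t : ℤ_[l])‖ < 1) (P : ℤ[X]) :
    ‖aeval z P - ((P.eval t : ℤ) : ℤ_[l])‖ < 1 := by
  have h1 := Polynomial.sub_dvd_eval_sub z (t : ℤ_[l]) (P.map (algebraMap ℤ ℤ_[l]))
  rw [eval_map_algebraMap, eval_map_algebraMap] at h1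
  have h2 : aeval (t : ℤ_[l]) P = ((P.eval t : ℤ) : ℤ_[l]) := by
    have h3 := Polynomial.aeval_algebraMap_apply ℤ_[l] t P
    rw [eq_intCast, eq_intCast] at h3
    rw [h3]
    simp
  rw [h2] at h1
  obtain ⟨u, hu⟩ := h1
  rw [hu, norm_mul]
  calc ‖z - (t : ℤ_[l])‖ * ‖u‖ ≤ ‖z - (t : ℤ_[l])‖ * 1 := mul_le_mul_of_nonneg_left (PadicInt.norm_le_one u) (norm_nonneg _)
    _ < 1 := by rwa [mul_one]

theorem k4_norm_add {l : ℕ} [Fact l.Prime] {x y : ℤ_[l]} (hx : ‖x‖ < 1) (hy : ‖y‖ < 1) : ‖x + y‖ < 1 :=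
  (PadicInt.nonarchimedean x y).trans_lt (max_lt hx hy)

/-- Let `b` be an integer of the number field `N`. For all large primes `l` and all primes `W` above `l` in an extension `M`
with trivial Frobenius on `N` there is an embedding of `N` in `ℚ_l` such that if `b` is an m-th power there then it is
an m-th power of an integer modulo `W`. -/
theorem k4_emb (N : Type) [Field N] [NumberField N] (b : 𝓞 N) : ∃ B : ℕ, ∀ (l : ℕ) [Fact l.Prime], B < l →
    ∀ (M : Type) [Field M] [NumberField M] (i : N →+* M) (W : Pr M), (l : 𝓞 M) ∈ W.asIdeal →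
      (∀ x : 𝓞 N, RingOfIntegers.mapRingHom i x - RingOfIntegers.mapRingHom i x ^ l ∈ W.asIdeal) →
      ∃ j : N →+* ℚ_[l], ∀ (m : ℕ), m ≠ 0 → ∀ c : ℚ_[l], c ^ m = j (b : N) →
        ∃ c0 : ℤ, RingOfIntegers.mapRingHom i b - (c0 : 𝓞 M) ^ m ∈ W.asIdeal := by
  obtain ⟨θ, hθ⟩ := k4_prim N
  have hint : IsIntegral ℤ (θ : N) := RingOfIntegers.isIntegral_coe θ
  set f := minpoly ℤ (θ : N) with hf
  have hfQ : minpoly ℚ (θ : N) = f.map (algebraMap ℤ ℚ) := minpoly.isIntegrallyClosed_eq_field_fractions' ℚ hint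
  have hsep : (minpoly ℚ (θ : N)).Separable := (minpoly.irreducible (hint.tower_top)).separable
  obtain ⟨U, V, R, hR, hUV⟩ := Pool.Agent.H60.UDef.exists_bezout (minpoly ℚ (θ : N)) hsep (N := 1) one_ne_zero
    (G := f) (by rw [hfQ, Int.cast_one, one_smul])
  have hb : (b : N) ∈ Algebra.adjoin ℚ {(θ : N)} := by
    rw [hθ]
    exact Algebra.mem_top
  rw [Algebra.adjoin_singleton_eq_range_aeval] at hb
  obtain ⟨g0, hg0⟩ := hb
  obtain ⟨D, g, hD, hg⟩ := Pool.Agent.H60.UDef.exists_int_poly g0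
  have hg1 : (D : N) * (b : N) = aeval (θ : N) g := by
    rw [Pool.Agent.H60.UDef.aeval_int_poly hg]
    congr 1
    exact hg0.symm
  have hgO : (D : 𝓞 N) * b = aeval θ g := by
    apply RingOfIntegers.coe_injective
    rw [map_mul, map_intCast, hg1]
    exact Polynomial.aeval_algebraMap_apply N θ g
  have hfO : aeval θ f = 0 := by
    apply RingOfIntegers.coe_injective
    rw [map_zero, ← Polynomial.aeval_algebraMap_apply N θ f]
    exact minpoly.aeval ℤ (θ : N)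
  refine ⟨max R.natAbs D.natAbs, fun l hl hB M _ _ i W hlW hfr => ?_⟩
  have hlR : ¬ (l : ℤ) ∣ R := fun h => by
    have h1 := Int.natCast_dvd.1 h
    have h2 := Nat.le_of_dvd (Int.natAbs_pos.2 hR) h1
    exact absurd ((le_max_left _ _).trans_lt hB) (not_lt.2 h2)
  have hlD : ¬ (l : ℤ) ∣ D := fun h => by
    have h1 := Int.natCast_dvd.1 h
    have h2 := Nat.le_of_dvd (Int.natAbs_pos.2 hD) h1
    exact absurd ((le_max_right _ _).trans_lt hB) (not_lt.2 h2)
  set I := RingOfIntegers.mapRingHom i with hI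
  have hIa : ∀ P : ℤ[X], I (aeval θ P) = aeval (I θ) P := fun P => (aeval_algHom_apply I.toIntAlgHom θ P).symm
  obtain ⟨t, ht⟩ := k4_int W hl.out hlW (I θ) (hfr θ)
  have hft : (l : ℤ) ∣ f.eval t := by
    refine k4_dvd W hl.out hlW _ ?_
    have h1 := k4_cong W ht f
    rw [← hIa, hfO, map_zero, zero_sub] at h1
    exact (Ideal.neg_mem_iff _).1 h1
  -- Hensel
  have e1 : aeval (t : ℤ_[l]) f = ((f.eval t : ℤ) : ℤ_[l]) := by
    have := Polynomial.aeval_algebraMap_apply ℤ_[l] t f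
    simpa using this
  have e2 : aeval (t : ℤ_[l]) (derivative f) = (((derivative f).eval t : ℤ) : ℤ_[l]) := by
    have := Polynomial.aeval_algebraMap_apply ℤ_[l] t (derivative f)
    simpa using this
  have hn1 : ‖aeval (t : ℤ_[l]) f‖ < 1 := by
    rw [e1, PadicInt.norm_int_lt_one_iff_dvd]
    exact hft
  have hn2 : ‖aeval (t : ℤ_[l]) (derivative f)‖ = 1 := by
    rw [e2]
    have h1 : ¬ ‖(((derivative f).eval t : ℤ) : ℤ_[l])‖ < 1 := by
      rw [PadicInt.norm_int_lt_one_iff_dvd]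
      intro h
      apply hlR
      have h2 := congrArg (eval t) hUV
      rw [eval_add, eval_mul, eval_mul, eval_C] at h2
      rw [← h2]
      exact dvd_add (hft.mul_left _) (h.mul_left _)
    exact le_antisymm (PadicInt.norm_le_one _) (not_lt.1 h1)
  obtain ⟨z, hz, hzt, -, -⟩ := hensels_lemma (F := f) (a := (t : ℤ_[l])) (by rw [hn2]; simpa using hn1)
  rw [hn2] at hzt
  let pb : PowerBasis ℚ N := PowerBasis.ofAdjoinEqTop' (hint.tower_top (A := ℚ)) hθ
  have hgen : pb.gen = (θ : N) := PowerBasis.ofAdjoinEqTop'_gen _ _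
  have hzf : aeval (z : ℚ_[l]) f = 0 := by
    have := Polynomial.aeval_algebraMap_apply ℚ_[l] z f
    rw [hz, map_zero] at this
    exact this
  have hroot : aeval (z : ℚ_[l]) (minpoly ℚ pb.gen) = 0 := by
    rw [hgen, hfQ, aeval_map_algebraMap]
    exact hzf
  let j : N →ₐ[ℚ] ℚ_[l] := pb.lift (z : ℚ_[l]) hroot
  have hjθ : j (θ : N) = z := by
    rw [← hgen]
    exact pb.lift_gen _ hroot
  have hja : ∀ P : ℤ[X], j (aeval (θ : N) P) = ((aeval z P : ℤ_[l]) : ℚ_[l]) := by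
    intro P
    have h1 := (aeval_algHom_apply (j.toRingHom.toIntAlgHom) (θ : N) P).symm
    have h2 := Polynomial.aeval_algebraMap_apply ℚ_[l] z P
    have h3 : (j.toRingHom.toIntAlgHom) (θ : N) = algebraMap ℤ_[l] ℚ_[l] z := hjθ
    rw [h3, h2] at h1
    exact h1
  refine ⟨j.toRingHom, fun m hm c hc => ?_⟩
  have hjb : ‖j.toRingHom (b : N)‖ ≤ 1 := Pool.Agent.H57O.f0_int j.toRingHom b
  have hc1 : ‖c‖ ≤ 1 := by
    rw [← hc, norm_pow] at hjb
    exact (pow_le_one_iff_of_nonneg (norm_nonneg c) hm).1 hjb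
  obtain ⟨c', rfl⟩ : ∃ c' : ℤ_[l], (c' : ℚ_[l]) = c := ⟨⟨c, hc1⟩, rfl⟩
  have hDc : (D : ℤ_[l]) * c' ^ m = aeval z g := by
    have h1 : ((aeval z g : ℤ_[l]) : ℚ_[l]) = ((D : ℤ_[l]) * c' ^ m : ℤ_[l]) := by
      rw [← hja, ← hg1, map_mul, map_intCast]
      push_cast
      rw [hc]
      rfl
    exact (Subtype.coe_injective h1).symm
  obtain ⟨c0, hc0⟩ : ∃ c0 : ℤ, ‖c' - (c0 : ℤ_[l])‖ < 1 := by
    refine ⟨(c'.zmodRepr : ℤ), ?_⟩
    have := PadicInt.norm_sub_zmodRepr_lt_one c'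
    simpa using this
  have hkey : (l : ℤ) ∣ g.eval t - D * c0 ^ m := by
    rw [← PadicInt.norm_int_lt_one_iff_dvd]
    have h1 := k4_padic hzt g
    have h2 := k4_padic hc0 (C D * X ^ m)
    have h3 : aeval c' (C D * X ^ m : ℤ[X]) = (D : ℤ_[l]) * c' ^ m := by
      rw [map_mul, map_pow, aeval_X, aeval_C, eq_intCast]
    have h4 : (C D * X ^ m : ℤ[X]).eval c0 = D * c0 ^ m := by
      rw [eval_mul, eval_pow, eval_X, eval_C]
    rw [h3, h4, hDc] at h2
    have h5 : ‖(((g.eval t : ℤ) : ℤ_[l]) - aeval z g)‖ < 1 := by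
      rw [norm_sub_rev]
      exact h1
    have h6 := k4_norm_add h5 h2
    rw [sub_add_sub_cancel] at h6
    rw [Int.cast_sub]
    exact h6
  refine ⟨c0, ?_⟩
  have h7 : (D : 𝓞 M) * (I b - (c0 : 𝓞 M) ^ m) ∈ W.asIdeal := by
    have h8 := k4_cong W ht g
    rw [← hIa, ← hgO, map_mul, map_intCast] at h8
    have h9 : ((g.eval t - D * c0 ^ m : ℤ) : 𝓞 M) ∈ W.asIdeal := by
      obtain ⟨u, hu⟩ := hkey
      rw [hu, Int.cast_mul, Int.cast_natCast]
      exact W.asIdeal.mul_mem_right _ hlW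
    have h10 := W.asIdeal.add_mem h8 h9
    have h11 : (D : 𝓞 M) * I b - ((g.eval t : ℤ) : 𝓞 M) + ((g.eval t - D * c0 ^ m : ℤ) : 𝓞 M) =
        (D : 𝓞 M) * (I b - (c0 : 𝓞 M) ^ m) := by
      push_cast
      ring
    rwa [h11] at h10
  rcases W.isPrime.mem_or_mem h7 with h | h
  · exact absurd (k4_dvd W hl.out hlW D h) hlD
  · exact h

end H45K
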