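import Pool.Agent.Lib.H45K.K4b

/-! # K4c: local m-th powers are m-th powers -/

open NumberField IsDedekindDomain Polynomial CFT

namespace H45K

theorem k4_gal_aux (L : Type) [Field L] [CharZero L] (inst : Algebra ℚ L) (h : @IsGalois ℚ _ L _ inst) :
    @IsGalois ℚ _ L _ DivisionRing.toRatAlgebra := by
  have e : inst = DivisionRing.toRatAlgebra := Subsingleton.elim _ _
  subst e
  exact h

/-- Galois closure. -/
theorem k4_gal (N : Type) [Field N] [NumberField N] :
    ∃ (M : Type) (_ : Field M) (_ : NumberField M), IsGalois ℚ M ∧ Nonempty (N →+* M) := by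
  set pb := Field.powerBasisOfFiniteOfSeparable ℚ N with hpb
  set f := minpoly ℚ pb.gen with hf
  have hL0 : CharZero f.SplittingField := charZero_of_injective_algebraMap (algebraMap ℚ f.SplittingField).injective
  have hL : NumberField f.SplittingField := ⟨⟩
  have hirr : Irreducible f := minpoly.irreducible (Algebra.IsIntegral.isIntegral _)
  have hG := k4_gal_aux f.SplittingField _
    (@IsGalois.of_separable_splitting_field ℚ _ f.SplittingField _ _ f (IsSplittingField.splittingField f) hirr.separable)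
  have hdeg : (f.map (algebraMap ℚ f.SplittingField)).degree ≠ 0 := by
    rw [degree_map]
    exact hirr.degree_pos.ne'
  obtain ⟨r, hr⟩ := (SplittingField.splits f).exists_eval_eq_zero hdeg
  rw [eval_map_algebraMap] at hr
  exact ⟨f.SplittingField, inferInstance, hL, hG, ⟨(pb.lift r hr).toRingHom⟩⟩

/-- The integral version: `b` is not an m-th power in `N` (which contains the m-th roots of unity), then for arbitrarily large
primes `l` there is an embedding in `ℚ_l` such that `b` is not an m-th power there. -/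
theorem k4_main_int (N : Type) [Field N] [NumberField N] (m : ℕ) (hm : m ≠ 0) (ζ : N) (hζ : IsPrimitiveRoot ζ m)
    (b : 𝓞 N) (hb : ∀ c : N, c ^ m ≠ (b : N)) (B : ℕ) :
    ∃ (l : ℕ) (_ : Fact l.Prime), B < l ∧ ∃ j : N →+* ℚ_[l], ∀ c : ℚ_[l], c ^ m ≠ j (b : N) := by
  let N' := (X ^ m - C (b : N) : N[X]).SplittingField
  have hN0 : CharZero N' := charZero_of_injective_algebraMap (algebraMap N N').injective
  have hN' : NumberField N' := NumberField.of_module_finite N N'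
  have hdeg : ((X ^ m - C (b : N) : N[X]).map (algebraMap N N')).degree ≠ 0 := by
    rw [degree_map, degree_X_pow_sub_C (Nat.pos_of_ne_zero hm)]
    exact_mod_cast hm
  obtain ⟨β', hβ'⟩ := (SplittingField.splits (X ^ m - C (b : N) : N[X])).exists_eval_eq_zero hdeg
  have hβ1 : β' ^ m = algebraMap N N' (b : N) := by
    rw [eval_map, eval₂_sub, eval₂_pow, eval₂_X, eval₂_C] at hβ'
    exact sub_eq_zero.1 hβ'
  obtain ⟨M, _, _, hGal, ⟨i'⟩⟩ := k4_gal N'
  set i : N →+* M := i'.comp (algebraMap N N') with hi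
  let _ : Algebra N M := i.toAlgebra
  have hM : IsGalois N M := IsGalois.tower_top_of_isGalois ℚ N M
  have hβ2 : (i' β') ^ m = i (b : N) := by
    rw [← map_pow, hβ1]
    rfl
  have hβ3 : i' β' ∉ Set.range (algebraMap N M) := by
    rintro ⟨c, hc⟩
    apply hb c
    apply i.injective
    rw [map_pow, ← hβ2]
    congr 1
  have hβ4 : ∃ σ : M ≃ₐ[N] M, σ (i' β') ≠ i' β' := by
    by_contra hcon
    push Not at hcon
    exact hβ3 ((IsGalois.mem_range_algebraMap_iff_fixed (i' β')).2 hcon)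
  obtain ⟨σ, hσ⟩ := hβ4
  set I := RingOfIntegers.mapRingHom i with hI
  have hib : IsIntegral ℤ (i (b : N)) := (RingOfIntegers.isIntegral_coe b).map i.toIntAlgHom
  obtain ⟨β, hβ⟩ : ∃ β : 𝓞 M, (β : M) = i' β' :=
    ⟨⟨i' β', IsIntegral.of_pow (Nat.pos_of_ne_zero hm) (by rw [hβ2]; exact hib)⟩, rfl⟩
  have hβm : β ^ m = I b := by
    apply RingOfIntegers.coe_injective
    rw [map_pow]
    show (β : M) ^ m = i (b : N)
    rw [hβ, hβ2]
  set s : M ≃ₐ[ℚ] M := σ.restrictScalars ℚ with hs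
  set γ : 𝓞 M := s • β - β with hγ
  have hγ0 : γ ≠ 0 := by
    intro h
    apply hσ
    have h1 : ((s • β : 𝓞 M) : M) = (β : M) := by rw [sub_eq_zero.1 h]
    rw [← hβ]
    exact h1
  set n := Ideal.absNorm (Ideal.span {γ}) with hn
  have hn0 : n ≠ 0 := by
    rw [hn, Ne, Ideal.absNorm_eq_zero_iff, Ideal.span_singleton_eq_bot]
    exact hγ0
  obtain ⟨B', hB'⟩ := k4_emb N b
  obtain ⟨l, hl, hlB, W, hlW, hF⟩ := k4_frob M s (max (max B B') n)
  have hlf : Fact l.Prime := ⟨hl⟩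
  have hfix : ∀ x : 𝓞 N, s • (I x) = I x := by
    intro x
    apply RingOfIntegers.coe_injective
    show σ (i (x : N)) = i (x : N)
    exact σ.commutes (x : N)
  obtain ⟨j, hj⟩ := hB' l (((le_max_right B B').trans (le_max_left _ _)).trans_lt hlB) M i W hlW (fun x => by
    have h1 := hF (I x)
    rwa [hfix] at h1)
  refine ⟨l, hlf, ((le_max_left B B').trans (le_max_left _ _)).trans_lt hlB, j, fun c hc => ?_⟩
  obtain ⟨c0, hc0⟩ := hj m hm c hc
  -- the m-th roots of unity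
  have hζm : ζ ^ m = 1 := hζ.pow_eq_one
  obtain ⟨ζO, hζO⟩ : ∃ ζO : 𝓞 N, (ζO : N) = ζ := ⟨⟨ζ, hζ.isIntegral (Nat.pos_of_ne_zero hm)⟩, rfl⟩
  have hζO1 : IsPrimitiveRoot ζO m := by
    refine IsPrimitiveRoot.of_map_of_injective (f := algebraMap (𝓞 N) N) ?_ RingOfIntegers.coe_injective
    have h1 : algebraMap (𝓞 N) N ζO = ζ := hζO
    rw [h1]
    exact hζ
  have hIinj : Function.Injective I := by
    intro x y hxy
    apply RingOfIntegers.coe_injective
    apply i.injective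
    exact congrArg (fun z : 𝓞 M => (z : M)) hxy
  have hζI : IsPrimitiveRoot (I ζO) m := hζO1.map_of_injective hIinj
  rw [← hI, ← hβm] at hc0
  have hc1 := hζI.pow_sub_pow_eq_prod_sub_mul (x := β) (y := (c0 : 𝓞 M)) (Nat.pos_of_ne_zero hm)
  have hc2 : ∏ η ∈ nthRootsFinset m (1 : 𝓞 M), (β - η * (c0 : 𝓞 M)) ∈ W.asIdeal := by
    rw [← hc1]
    exact hc0
  obtain ⟨η, hη, hηW⟩ := (W.isPrime.prod_mem_iff).1 hc2
  rw [mem_nthRootsFinset (Nat.pos_of_ne_zero hm)] at hη
  have hmz : NeZero m := ⟨hm⟩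
  obtain ⟨k, hk, hηk⟩ := hζI.eq_pow_of_pow_eq_one hη
  have hη1 : s • (η * (c0 : 𝓞 M)) = η * (c0 : 𝓞 M) := by
    have h1 : η * (c0 : 𝓞 M) = I (ζO ^ k * (c0 : 𝓞 N)) := by
      rw [map_mul, map_pow, map_intCast, hηk]
    rw [h1, hfix]
  have h1 := hF β
  have h2 := hF (η * (c0 : 𝓞 M))
  rw [hη1] at h2
  have h3 : β ^ l - (η * (c0 : 𝓞 M)) ^ l ∈ W.asIdeal := by
    obtain ⟨u, hu⟩ := sub_dvd_pow_sub_pow β (η * (c0 : 𝓞 M)) l
    rw [hu]
    exact W.asIdeal.mul_mem_right _ hηW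
  have h4 : γ ∈ W.asIdeal := by
    have h5 := W.asIdeal.sub_mem (W.asIdeal.sub_mem (W.asIdeal.add_mem h1 h3) h2) hηW
    have h6 : s • β - β ^ l + (β ^ l - (η * (c0 : 𝓞 M)) ^ l) - (η * (c0 : 𝓞 M) - (η * (c0 : 𝓞 M)) ^ l) -
        (β - η * (c0 : 𝓞 M)) = γ := by
      rw [hγ]
      ring
    rwa [h6] at h5
  have h7 : ((n : ℤ) : 𝓞 M) ∈ W.asIdeal := by
    have h8 : ((n : ℕ) : 𝓞 M) ∈ Ideal.span {γ} := Ideal.absNorm_mem _
    rw [Int.cast_natCast]
    exact (Ideal.span_singleton_le_iff_mem _).2 h4 h8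
  have h9 := k4_dvd W hl hlW _ h7
  have h10 := Nat.le_of_dvd (Nat.pos_of_ne_zero hn0) (by exact_mod_cast h9)
  exact absurd ((le_max_right _ _).trans_lt hlB) (not_lt.2 h10)

/-- LOCAL-GLOBAL PRINCIPLE for m-th powers in a number field which contains the m-th roots of unity: an element which is an
m-th power under all embeddings in `ℚ_l`, `l` large, is an m-th power. -/
theorem k4_main (N : Type) [Field N] [NumberField N] (m : ℕ) (hm : m ≠ 0) (ζ : N) (hζ : IsPrimitiveRoot ζ m)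
    (b : N) (B : ℕ) (h : ∀ (l : ℕ) [Fact l.Prime], B < l → ∀ j : N →+* ℚ_[l], ∃ c : ℚ_[l], c ^ m = j b) :
    ∃ c : N, c ^ m = b := by
  obtain ⟨D, y, hD, hy⟩ := k4_mult b
  have hDN : (D : N) ≠ 0 := by exact_mod_cast hD
  obtain ⟨k, rfl⟩ := Nat.exists_eq_succ_of_ne_zero hm
  set b' : 𝓞 N := (D : 𝓞 N) ^ k * y with hb'
  have hb1 : (b' : N) = (D : N) ^ (k + 1) * b := by
    rw [hb']
    show algebraMap (𝓞 N) N ((D : 𝓞 N) ^ k * y) = _
    rw [map_mul, map_pow, map_intCast]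
    have h1 : algebraMap (𝓞 N) N y = (D : N) * b := hy
    rw [h1]
    ring
  by_contra hcon
  push Not at hcon
  obtain ⟨l, hl, hlB, j, hj⟩ := k4_main_int N (k + 1) hm ζ hζ b' (fun c hc => by
    apply hcon (c * (D : N)⁻¹)
    rw [mul_pow, hc, hb1, inv_pow]
    field_simp) B
  obtain ⟨c, hc⟩ := h l hlB j
  apply hj ((D : ℚ_[l]) * c)
  rw [mul_pow, hc, hb1, map_mul, map_pow, map_intCast]

end H45K
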