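import Pool.Agent.Lib.H45K.K4c

/-! # K5: local squares, relative to finitely many elements (Kummer theory of exponent two) -/

open NumberField IsDedekindDomain Polynomial CFT

namespace H45K

/-- Quadratic extensions. -/
theorem k5_ext (L : Type) [Field L] [NumberField L] (a : L) (ha : ¬ IsSquare a) :
    ∃ (N : Type) (_ : Field N) (_ : NumberField N) (i : L →+* N) (α : N), α * α = i a ∧
      ∀ c : N, ∃ x y : L, c = i x + i y * α := by
  have hirr : Irreducible (X ^ 2 - C a : L[X]) := by
    refine X_pow_sub_C_irreducible_of_prime Nat.prime_two fun b hb => ha ⟨b, ?_⟩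
    rw [← hb, sq]
  have hf : Fact (Irreducible (X ^ 2 - C a : L[X])) := ⟨hirr⟩
  have hmon : (X ^ 2 - C a : L[X]).Monic := monic_X_pow_sub_C a two_ne_zero
  have hN0 : CharZero (AdjoinRoot (X ^ 2 - C a : L[X])) :=
    charZero_of_injective_algebraMap (algebraMap L (AdjoinRoot (X ^ 2 - C a : L[X]))).injective
  have hfin : Module.Finite L (AdjoinRoot (X ^ 2 - C a : L[X])) := hmon.finite_adjoinRoot
  have hN : NumberField (AdjoinRoot (X ^ 2 - C a : L[X])) := NumberField.of_module_finite L _
  refine ⟨AdjoinRoot (X ^ 2 - C a : L[X]), inferInstance, hN, algebraMap L _, AdjoinRoot.root _, ?_, fun c => ?_⟩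
  · have h1 := AdjoinRoot.eval₂_root (X ^ 2 - C a : L[X])
    rw [eval₂_sub, eval₂_pow, eval₂_X, eval₂_C, sub_eq_zero] at h1
    exact (pow_two _).symm.trans h1
  · obtain ⟨g, rfl⟩ := AdjoinRoot.mk_surjective c
    have h1 := modByMonic_add_div g (X ^ 2 - C a : L[X])
    have h2 : AdjoinRoot.mk (X ^ 2 - C a : L[X]) g = AdjoinRoot.mk (X ^ 2 - C a : L[X]) (g %ₘ (X ^ 2 - C a)) := by
      conv_lhs => rw [← h1]
      rw [map_add, map_mul, AdjoinRoot.mk_self, zero_mul, add_zero]
    have h3 : (g %ₘ (X ^ 2 - C a : L[X])).natDegree < 2 := by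
      have h4 := natDegree_modByMonic_lt g hmon (fun h => by
        have h5 := congrArg natDegree h
        rw [natDegree_X_pow_sub_C, natDegree_one] at h5
        omega)
      rwa [natDegree_X_pow_sub_C] at h4
    refine ⟨(g %ₘ (X ^ 2 - C a : L[X])).coeff 0, (g %ₘ (X ^ 2 - C a : L[X])).coeff 1, ?_⟩
    rw [h2]
    conv_lhs => rw [as_sum_range_C_mul_X_pow' (g %ₘ (X ^ 2 - C a : L[X])) h3]
    rw [Finset.sum_range_succ, Finset.sum_range_one, pow_zero, mul_one, pow_one, map_add, map_mul, AdjoinRoot.mk_X,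
      AdjoinRoot.mk_C, AdjoinRoot.mk_C]
    rfl

/-- Squares in a quadratic extension. -/
theorem k5_step {L N : Type} [Field L] [CharZero L] [Field N] (i : L →+* N) {a : L} (ha : ¬ IsSquare a) {α : N}
    (hα : α * α = i a) (hb : ∀ c : N, ∃ x y : L, c = i x + i y * α) {b : L} (h : IsSquare (i b)) :
    IsSquare b ∨ IsSquare (a * b) := by
  obtain ⟨c, hc⟩ := h
  obtain ⟨x, y, rfl⟩ := hb c
  have h1 : i b = i (x * x + a * y * y) + i (2 * x * y) * α := by
    rw [hc]
    simp only [map_add, map_mul, ← hα, map_ofNat]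
    ring
  by_cases h2 : 2 * x * y = 0
  · rw [h2, map_zero, zero_mul, add_zero] at h1
    have h3 := i.injective h1
    rcases mul_eq_zero.1 h2 with h4 | h4
    · have hx : x = 0 := by
        rcases mul_eq_zero.1 h4 with h5 | h5
        · exact absurd h5 two_ne_zero
        · exact h5
      right
      refine ⟨a * y, ?_⟩
      rw [h3, hx]
      ring
    · left
      refine ⟨x, ?_⟩
      rw [h3, h4]
      ring
  · exfalso
    apply ha
    refine ⟨(b - (x * x + a * y * y)) / (2 * x * y), ?_⟩
    apply i.injective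
    have h3 : i (2 * x * y) ≠ 0 := by
      rw [Ne, map_eq_zero]
      exact h2
    have h4 : α = i ((b - (x * x + a * y * y)) / (2 * x * y)) := by
      rw [map_div₀, eq_div_iff h3, map_sub, h1]
      ring
    rw [map_mul, ← h4, hα]

/-- Relative local-global principle for squares. -/
theorem k5_fin (n : ℕ) : ∀ (L : Type) [Field L] [NumberField L] (a : Fin n → L) (b : L) (B : ℕ)
    (_ : ∀ (l : ℕ) [Fact l.Prime], B < l → ∀ j : L →+* ℚ_[l], (∀ k, IsSquare (j (a k))) → IsSquare (j b)),
    ∃ s : Finset (Fin n), IsSquare ((∏ k ∈ s, a k) * b) := by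
  induction n with
  | zero =>
    intro L _ _ a b B h
    obtain ⟨c, hc⟩ := k4_main L 2 two_ne_zero (-1) (IsPrimitiveRoot.neg_one 0 (by norm_num)) b B (fun l hl hB j => by
      obtain ⟨c, hc⟩ := h l hB j (fun k => k.elim0)
      exact ⟨c, by rw [hc, sq]⟩)
    exact ⟨∅, c, by rw [Finset.prod_empty, one_mul, ← hc, sq]⟩
  | succ n ih =>
    intro L _ _ a b B h
    by_cases ha : IsSquare (a 0)
    · obtain ⟨s, hs⟩ := ih L (fun k => a k.succ) b B (fun l hl hB j hj => h l hB j (fun k => by
        refine Fin.cases ?_ ?_ k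
        · exact ha.map j
        · exact hj))
      refine ⟨s.map (Fin.succEmb n), ?_⟩
      rw [Finset.prod_map]
      exact hs
    · obtain ⟨N, _, _, i, α, hα, hN⟩ := k5_ext L (a 0) ha
      obtain ⟨s, hs⟩ := ih N (fun k => i (a k.succ)) (i b) B (fun l hl hB j hj => h l hB (j.comp i) (fun k => by
        refine Fin.cases ?_ ?_ k
        · exact ⟨j α, by rw [← map_mul, hα]; rfl⟩
        · exact hj))
      rw [← map_prod, ← map_mul] at hs
      rcases k5_step i ha hα hN hs with h1 | h1
      · refine ⟨s.map (Fin.succEmb n), ?_⟩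
        rw [Finset.prod_map]
        exact h1
      · refine ⟨Finset.cons 0 (s.map (Fin.succEmb n)) ?_, ?_⟩
        · rw [Finset.mem_map]
          rintro ⟨k, -, hk⟩
          exact Fin.succ_ne_zero k hk
        · rw [Finset.prod_cons, Finset.prod_map, mul_assoc]
          exact h1

/-- Relative local-global principle for squares: if `b` is a square under all embeddings in `ℚ_l` (`l` large) under which
the elements of `A` are squares, then it is a product of elements of `A` times a square. -/
theorem k5_main (L : Type) [Field L] [NumberField L] (A : Finset L) (b : L) (B : ℕ)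
    (h : ∀ (l : ℕ) [Fact l.Prime], B < l → ∀ j : L →+* ℚ_[l], (∀ a ∈ A, IsSquare (j a)) → IsSquare (j b)) :
    ∃ A' ⊆ A, IsSquare ((∏ a ∈ A', a) * b) := by
  classical
  obtain ⟨s, hs⟩ := k5_fin A.card L (fun k => (A.equivFin.symm k : L)) b B (fun l hl hB j hj => h l hB j (fun a ha => by
    have h1 := hj (A.equivFin ⟨a, ha⟩)
    rwa [Equiv.symm_apply_apply] at h1))
  refine ⟨s.map (A.equivFin.symm.toEmbedding.trans (Function.Embedding.subtype _)), ?_, ?_⟩
  · intro a ha
    rw [Finset.mem_map] at ha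
    obtain ⟨k, -, rfl⟩ := ha
    exact (A.equivFin.symm k).2
  · rw [Finset.prod_map]
    exact hs

end H45K
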