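import Pool.Agent.Lib.H45K.QuadRec

/-! # Characters of exponent m of the absolute Galois group of a number field (from Artin reciprocity)

If `a` is positive at all real places and a local m-th power at all primes of `S`, then the value of a character of exponent m
with open kernel which is unramified outside `S` at the divisor of `a` is trivial. -/

open NumberField IsDedekindDomain

namespace H45K

open CFT ST32

section

variable {K : Type} [Field K] [NumberField K] {Om : Type} [Field Om] [Algebra K Om]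

/-- `a` is an m-th power in the completion at `v`: it can be approximated by m-th powers. -/
def LocPow (m : ℕ) (v : Pr K) (a : K) : Prop := ∀ N : ℕ, ∃ y : K, v.valuation K (a - y ^ m) < WithZero.exp (-(N : ℤ))

theorem pow_close {v : Pr K} {x y : K} (hx : v.valuation K x = 1) (hy : v.valuation K y = 1) {N : ℕ}
    (h : v.valuation K (y - x) < WithZero.exp (-(N : ℤ))) (m : ℕ) :
    v.valuation K (y ^ m - x ^ m) < WithZero.exp (-(N : ℤ)) := by
  induction m with
  | zero =>
    rw [pow_zero, pow_zero, sub_self, map_zero]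
    exact WithZero.exp_pos
  | succ m ih =>
    have e : y ^ (m + 1) - x ^ (m + 1) = y ^ m * (y - x) + (y ^ m - x ^ m) * x := by ring
    rw [e]
    refine Valuation.map_add_lt _ ?_ ?_
    · rw [map_mul, map_pow, hy, one_pow, one_mul]
      exact h
    · rw [map_mul, hx, mul_one]
      exact ih

/-- A totally positive local m-th power at the primes of `S`, with value one there, is an m-th power times an element of
any given ray. -/
theorem exists_ray_pow {m : ℕ} (hm : m ≠ 0) {S : Finset (Pr K)} {a : K} (h0 : a ≠ 0)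
    (hu : ∀ v ∈ S, v.valuation K a = 1) (hpos : ∀ φ : K →+* ℝ, 0 < φ a) (hsq : ∀ v ∈ S, LocPow m v a) (N : ℕ) :
    ∃ x : K, x ≠ 0 ∧ Ray S N (a * (x⁻¹) ^ m) := by
  classical
  choose! y hy using fun v (hv : v ∈ S) => hsq v hv N
  obtain ⟨x, hx0, hx1, hx3⟩ := approx S N y (fun _ => 1) (fun _ => one_ne_zero)
  have hy2 : ∀ v ∈ S, v.valuation K (y v) = 1 := by
    intro v hv
    have h1 : v.valuation K (a - y v ^ m) < 1 := (hy v hv).trans_le (exp_le_one N)
    have h2 := val_one_of_close (hu v hv) h1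
    rw [map_pow] at h2
    exact (pow_eq_one_iff.1 h2).resolve_right hm
  have hx2 : ∀ v ∈ S, v.valuation K x = 1 := by
    intro v hv
    have h1 : v.valuation K (y v - x) < 1 := by
      rw [Valuation.map_sub_swap]
      exact (hx1 v hv).trans_le (exp_le_one N)
    exact val_one_of_close (hy2 v hv) h1
  have hxm : x ^ m ≠ 0 := pow_ne_zero _ hx0
  refine ⟨x, hx0, mul_ne_zero h0 (pow_ne_zero _ (inv_ne_zero hx0)), fun v hv => ?_, fun φ => ?_⟩
  · have e : a * (x⁻¹) ^ m - 1 = ((a - y v ^ m) + (y v ^ m - x ^ m)) * (x⁻¹) ^ m := by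
      rw [inv_pow]
      field_simp
      ring
    rw [e, map_mul, map_pow, map_inv₀, hx2 v hv, inv_one, one_pow, mul_one]
    refine Valuation.map_add_lt _ (hy v hv) ?_
    refine pow_close (hx2 v hv) (hy2 v hv) ?_ m
    rw [Valuation.map_sub_swap]
    exact hx1 v hv
  · rw [map_mul, map_pow, map_inv₀]
    have h1 : 0 < φ x := by
      have := hx3 φ
      rwa [mul_one] at this
    exact mul_pos (hpos φ) (pow_pos (inv_pos.2 h1) _)

/-- RECIPROCITY FOR CHARACTERS OF EXPONENT m, at the divisor of any element. -/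
theorem pow_rec_dv [IsGalois K Om] {A : Type} [CommGroup A] {m : ℕ} (hm : m ≠ 0) (χ : (Om ≃ₐ[K] Om) →* A)
    (hχ : IsOpen (χ.ker : Set (Om ≃ₐ[K] Om))) (h2 : ∀ g, χ g ^ m = 1) (S : Finset (Pr K)) (hS : ∀ v ∉ S, UnrV χ v)
    (Fr : Pr K → (Om ≃ₐ[K] Om)) (hFr : ∀ v ∉ S, IsFrv v (Fr v)) (D : Dv K →+ Additive A)
    (h1 : ∀ v ∉ S, D (Finsupp.single v 1) = Additive.ofMul (χ (Fr v))) (h0 : ∀ v ∈ S, D (Finsupp.single v 1) = 0)
    {a : K} (ha : a ≠ 0) (hu : ∀ v ∈ S, v.valuation K a = 1) (hpos : ∀ φ : K →+* ℝ, 0 < φ a)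
    (hsq : ∀ v ∈ S, LocPow m v a) : D (dv a) = 0 := by
  classical
  obtain ⟨N, hN⟩ := rec_fin χ hχ S hS Fr hFr D h1 h0
  obtain ⟨x, hx0, hray⟩ := exists_ray_pow hm ha hu hpos hsq N
  have h4 := hN _ hray
  have h5 : ∀ E : Dv K, m • D E = 0 := by
    intro E
    have h6 : m • D = 0 := by
      refine Finsupp.addHom_ext fun v n => ?_
      have e1 : (Finsupp.single v n : Dv K) = n • Finsupp.single v 1 := by
        rw [Finsupp.smul_single, smul_eq_mul, mul_one]
      rw [AddMonoidHom.zero_apply, e1, map_zsmul, AddMonoidHom.smul_apply]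
      by_cases hv : v ∈ S
      · rw [h0 v hv, smul_zero, smul_zero]
      · rw [h1 v hv, ← ofMul_pow, h2, ofMul_one, smul_zero]
    exact congrArg (fun f : Dv K →+ Additive A => f E) h6
  have h7 : ∀ k : ℕ, D (dv ((x⁻¹) ^ k)) = k • D (dv x⁻¹) := by
    intro k
    induction k with
    | zero =>
      rw [pow_zero, zero_smul]
      have h8 : dv (1 : K) = 0 := by
        have h9 := dv_mul (K := K) one_ne_zero one_ne_zero
        rw [one_mul] at h9
        exact left_eq_add.1 h9
      rw [h8, map_zero]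
    | succ k ih => rw [pow_succ, dv_mul (pow_ne_zero _ (inv_ne_zero hx0)) (inv_ne_zero hx0), map_add, ih, succ_nsmul]
  rw [dv_mul ha (pow_ne_zero _ (inv_ne_zero hx0)), map_add, h7, h5, add_zero] at h4
  exact h4

/-- RECIPROCITY FOR CHARACTERS OF EXPONENT m, at a prime generated by a local m-th power. -/
theorem pow_rec [IsGalois K Om] {A : Type} [CommGroup A] {m : ℕ} (hm : m ≠ 0) (χ : (Om ≃ₐ[K] Om) →* A)
    (hχ : IsOpen (χ.ker : Set (Om ≃ₐ[K] Om))) (h2 : ∀ g, χ g ^ m = 1) (S : Finset (Pr K)) (hS : ∀ v ∉ S, UnrV χ v)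
    (Fr : Pr K → (Om ≃ₐ[K] Om)) (hFr : ∀ v ∉ S, IsFrv v (Fr v)) (w : Pr K) (hw : w ∉ S) (π : K)
    (hπ : dv π = Finsupp.single w 1) (hpos : ∀ φ : K →+* ℝ, 0 < φ π) (hsq : ∀ v ∈ S, LocPow m v π) :
    χ (Fr w) = 1 := by
  classical
  let D : Dv K →+ Additive A :=
    Finsupp.liftAddHom fun v => zmultiplesHom (Additive A) (if v ∈ S then 0 else Additive.ofMul (χ (Fr v)))
  have hD : ∀ (v : Pr K) (n : ℤ), D (Finsupp.single v n) = n • (if v ∈ S then 0 else Additive.ofMul (χ (Fr v))) := by
    intro v n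
    show Finsupp.liftAddHom _ _ = _
    rw [Finsupp.liftAddHom_apply_single]
    rfl
  have h1 : ∀ v ∉ S, D (Finsupp.single v 1) = Additive.ofMul (χ (Fr v)) := by
    intro v hv
    rw [hD, if_neg hv, one_smul]
  have h0 : ∀ v ∈ S, D (Finsupp.single v 1) = 0 := by
    intro v hv
    rw [hD, if_pos hv, smul_zero]
  have hπ0 : π ≠ 0 := by
    rintro rfl
    have h3 := congrArg (fun f : Dv K => f w) hπ
    simp only [dv_apply, od_zero, Finsupp.single_eq_same] at h3
    exact zero_ne_one h3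
  have hu : ∀ v ∈ S, v.valuation K π = 1 := by
    intro v hv
    have h3 : od v π = 0 := by
      rw [← dv_apply, hπ]
      exact Finsupp.single_eq_of_ne (fun h => hw (by rwa [h] at hv))
    rw [val_eq v hπ0, h3, neg_zero, WithZero.exp_zero]
  have h3 := pow_rec_dv hm χ hχ h2 S hS Fr hFr D h1 h0 hπ0 hu hpos hsq
  rw [hπ, h1 w hw] at h3
  exact Additive.ofMul.injective h3

end

end H45K
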