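import Mathlib
import Pool.Agent.Lib.CFT.N04
import Pool.Agent.Lib.CFT.B14

/-! # Characters of order two of the absolute Galois group of a number field (from Artin reciprocity)

If `π` generates a prime `w`, is positive at all real places and is a local square at all primes of `S`, then every
character of exponent two with open kernel which is unramified outside `S` is trivial at the Frobenius elements of `w`. -/

open NumberField IsDedekindDomain

namespace H45K

open CFT ST32

section

variable {K : Type} [Field K] [NumberField K] {Om : Type} [Field Om] [Algebra K Om]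

/-- `π` is a square in the completion at `v`: it can be approximated by squares. -/
def LocSq (v : Pr K) (π : K) : Prop := ∀ N : ℕ, ∃ y : K, v.valuation K (π - y ^ 2) < WithZero.exp (-(N : ℤ))

theorem val_one_of_close {v : Pr K} {x y : K} (hx : v.valuation K x = 1) (h : v.valuation K (x - y) < 1) :
    v.valuation K y = 1 := by
  have h1 : y = x - (x - y) := by ring
  rw [h1, sub_eq_add_neg]
  have h2 : v.valuation K (-(x - y)) < v.valuation K x := by rwa [Valuation.map_neg, hx]
  rw [Valuation.map_add_eq_of_lt_left _ h2, hx]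

/-- An element which is a local square at the primes of `S`, with value one there, and is totally positive is a square times
an element of any given ray. -/
theorem exists_ray {S : Finset (Pr K)} {π : K} (h0 : π ≠ 0) (hu : ∀ v ∈ S, v.valuation K π = 1)
    (hpos : ∀ φ : K →+* ℝ, 0 < φ π) (hsq : ∀ v ∈ S, LocSq v π) (N : ℕ) :
    ∃ x : K, x ≠ 0 ∧ Ray S N (π * (x⁻¹ * x⁻¹)) := by
  classical
  choose! y hy using fun v (hv : v ∈ S) => hsq v hv N
  obtain ⟨x, hx0, hx1, _⟩ := approx S N y (fun _ => 1) (fun _ => one_ne_zero)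
  have hy2 : ∀ v ∈ S, v.valuation K (y v) = 1 := by
    intro v hv
    have h1 : v.valuation K (π - y v ^ 2) < 1 := (hy v hv).trans_le (exp_le_one N)
    have h2 := val_one_of_close (hu v hv) h1
    rw [map_pow] at h2
    exact (pow_eq_one_iff.1 h2).resolve_right two_ne_zero
  have hx2 : ∀ v ∈ S, v.valuation K x = 1 := by
    intro v hv
    have h1 : v.valuation K (y v - x) < 1 := by
      rw [Valuation.map_sub_swap]
      exact (hx1 v hv).trans_le (exp_le_one N)
    exact val_one_of_close (hy2 v hv) h1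
  refine ⟨x, hx0, mul_ne_zero h0 (mul_ne_zero (inv_ne_zero hx0) (inv_ne_zero hx0)), fun v hv => ?_, fun φ => ?_⟩
  · have e : π * (x⁻¹ * x⁻¹) - 1 = ((π - y v ^ 2) + (y v - x) * (y v + x)) * (x⁻¹ * x⁻¹) := by
      field_simp
      ring
    rw [e, map_mul, map_mul, map_inv₀, hx2 v hv, inv_one, mul_one, mul_one]
    refine Valuation.map_add_lt _ (hy v hv) ?_
    rw [map_mul, Valuation.map_sub_swap]
    have h3 : v.valuation K (y v + x) ≤ 1 := by
      refine (Valuation.map_add _ _ _).trans ?_
      rw [hy2 v hv, hx2 v hv, max_self]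
    calc v.valuation K (x - y v) * v.valuation K (y v + x) ≤ v.valuation K (x - y v) * 1 := mul_le_mul_right h3 _
      _ < _ := by
          rw [mul_one]
          exact hx1 v hv
  · rw [map_mul, map_mul, map_inv₀]
    have h1 : φ x ≠ 0 := by
      rw [Ne, map_eq_zero]
      exact hx0
    have h2 : 0 < (φ x)⁻¹ * (φ x)⁻¹ := mul_self_pos.2 (inv_ne_zero h1)
    exact mul_pos (hpos φ) h2

/-- RECIPROCITY FOR QUADRATIC CHARACTERS. -/
theorem quad_rec [IsGalois K Om] {A : Type} [CommGroup A] (χ : (Om ≃ₐ[K] Om) →* A)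
    (hχ : IsOpen (χ.ker : Set (Om ≃ₐ[K] Om))) (h2 : ∀ g, χ g * χ g = 1) (S : Finset (Pr K)) (hS : ∀ v ∉ S, UnrV χ v)
    (Fr : Pr K → (Om ≃ₐ[K] Om)) (hFr : ∀ v ∉ S, IsFrv v (Fr v)) (w : Pr K) (hw : w ∉ S) (π : K)
    (hπ : dv π = Finsupp.single w 1) (hpos : ∀ φ : K →+* ℝ, 0 < φ π) (hsq : ∀ v ∈ S, LocSq v π) :
    χ (Fr w) = 1 := by
  classical
  let D : Dv K →+ Additive A :=
    Finsupp.liftAddHom fun v => zmultiplesHom (Additive A) (if v ∈ S then 0 else Additive.ofMul (χ (Fr v)))
  have hD : ∀ (v : Pr K) (n : ℤ), D (Finsupp.single v n) = n • (if v ∈ S then 0 else Additive.ofMul (χ (Fr v))) := by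
    intro v n
    show Finsupp.liftAddHom _ _ = _
    rw [Finsupp.liftAddHom_apply_single]
    rfl
  have h1 : ∀ v ∉ S, D (Finsupp.single v 1) = Additive.ofMul (χ (Fr v)) := by
    intro v hv
    rw [hD, if_neg hv, one_smul]
  have h0 : ∀ v ∈ S, D (Finsupp.single v 1) = 0 := by
    intro v hv
    rw [hD, if_pos hv, smul_zero]
  obtain ⟨N, hN⟩ := rec_fin χ hχ S hS Fr hFr D h1 h0
  have hπ0 : π ≠ 0 := by
    rintro rfl
    have h3 := congrArg (fun f : Dv K => f w) hπ
    simp only [dv_apply, od_zero, Finsupp.single_eq_same] at h3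
    exact zero_ne_one h3
  have hu : ∀ v ∈ S, v.valuation K π = 1 := by
    intro v hv
    have h3 : od v π = 0 := by
      rw [← dv_apply, hπ]
      exact Finsupp.single_eq_of_ne (fun h => hw (by rwa [h] at hv))
    rw [val_eq v hπ0, h3, neg_zero, WithZero.exp_zero]
  obtain ⟨x, hx0, hray⟩ := exists_ray hπ0 hu hpos hsq N
  have h4 := hN _ hray
  rw [dv_mul hπ0 (mul_ne_zero (inv_ne_zero hx0) (inv_ne_zero hx0)), dv_mul (inv_ne_zero hx0) (inv_ne_zero hx0), map_add,
    map_add, hπ, h1 w hw] at h4
  have h5 : ∀ E : Dv K, D E + D E = 0 := by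
    intro E
    have h6 : D + D = 0 := by
      refine Finsupp.addHom_ext fun v n => ?_
      rw [AddMonoidHom.add_apply, hD, ← smul_add, AddMonoidHom.zero_apply]
      split_ifs
      · rw [add_zero, smul_zero]
      · rw [← ofMul_mul, h2, ofMul_one, smul_zero]
    exact congrArg (fun f : Dv K →+ Additive A => f E) h6
  rw [h5, add_zero] at h4
  exact Additive.ofMul.injective h4

end

end H45K
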